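import Mathlib

set_option autoImplicit false
set_option linter.unusedSectionVars false

/-! # Balanced trees and decompositions -/

namespace Pool.Agent.R39.Dec

/-- `T` is a tree whose two bipartition classes `X` and `Xᶜ` both have exactly `n` vertices. -/
def IsBalancedTree (n : ℕ) {V : Type} [Fintype V] (T : SimpleGraph V) : Prop :=
  T.IsTree ∧ ∃ X : Set V, X.ncard = n ∧ (Xᶜ).ncard = n ∧ ∀ a b, T.Adj a b → (a ∈ X ↔ b ∉ X)

/-- `T` decomposes `H`: the edges of `H` can be partitioned into the edge sets of `m` copies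
of `T`; the `i`-th copy is the image of `T` under the injective map `f i`. -/
def Decomposes {V W : Type} (T : SimpleGraph V) (H : SimpleGraph W) : Prop :=
  ∃ (m : ℕ) (f : Fin m → V → W), (∀ i, Function.Injective (f i)) ∧
    (∀ i a b, T.Adj a b → H.Adj (f i a) (f i b)) ∧
    ∀ x y, H.Adj x y → ∃! i, ∃ a b, T.Adj a b ∧ f i a = x ∧ f i b = y

/-- `S(n)`: the positive integers `k` such that every tree with two bipartition classes of size
`n` decomposes `K_{2n-1,k}`. -/
def S (n : ℕ) : Set ℕ :=
  {k | 1 ≤ k ∧ ∀ (V : Type) [Fintype V] (T : SimpleGraph V), IsBalancedTree n T →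
    Decomposes T (completeBipartiteGraph (Fin (2 * n - 1)) (Fin k))}

end Pool.Agent.R39.Dec
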