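import Mathlib
import Pool.Agent.R39.Dec.Defs

set_option autoImplicit false
set_option linter.unusedSectionVars false

/-! # The decomposition by the symmetric group -/

namespace Pool.Agent.R39.Dec

open Finset Classical

/-- a partial injection of a finite type extends to a permutation -/
lemma exists_perm {α : Type} [Fintype α] (s : Finset α) (f : α → α)
    (hf : Set.InjOn f (s : Set α)) : ∃ ρ : Equiv.Perm α, ∀ a ∈ s, ρ a = f a := by
  obtain ⟨g, hg⟩ := Finset.exists_equiv_extend_of_card_eq (α := α) (β := α) (t := univ)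
    (by rw [card_univ]) (subset_univ (s.image f)) hf
  refine ⟨g.trans (Equiv.subtypeUnivEquiv (fun x => mem_univ x)), fun a ha => ?_⟩
  exact hg a ha

/-- the structure needed: a bipartite graph on `X ⊕ Y` given by a bijection between its edges
and `A` -/
theorem group_dec {A X Y : Type} [Fintype A] [Fintype X] [Fintype Y] (N : X → Y → Prop)
    (ε : {p : X × Y // N p.1 p.2} ≃ A) (φ : X ↪ A)
    (hYA : Fintype.card Y + Fintype.card X ≤ Fintype.card A + 1)
    (hE : Nonempty {p : X × Y // N p.1 p.2}) :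
    ∃ ρ : Y → Equiv.Perm A, Function.Injective ρ ∧
      ∀ (x : X) (y : Y) (h : N x y), ρ y (ε ⟨(x, y), h⟩) = φ x := by
  obtain ⟨⟨⟨x0, y0⟩, h0⟩⟩ := hE
  -- distinct values outside the image of φ
  have hcard : Fintype.card {y : Y // y ≠ y0} ≤ Fintype.card {a : A // a ∉ Set.range φ} := by
    have h1 : Fintype.card {y : Y // y ≠ y0} = Fintype.card Y - 1 := by
      rw [Fintype.card_subtype_compl, Fintype.card_subtype_eq]
    have h2 : Fintype.card {a : A // a ∉ Set.range φ} = Fintype.card A - Fintype.card X := by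
      rw [Fintype.card_subtype_compl]
      congr 1
      exact (Fintype.card_congr (Equiv.ofInjective φ φ.injective)).symm
    have h3 : 0 < Fintype.card Y := Fintype.card_pos_iff.2 ⟨y0⟩
    omega
  obtain ⟨g⟩ := Function.Embedding.nonempty_of_card_le hcard
  set st : A := ε ⟨(x0, y0), h0⟩ with hst
  -- the partial maps
  have hex : ∀ y : Y, ∃ ρ : Equiv.Perm A,
      (∀ (x : X) (h : N x y), ρ (ε ⟨(x, y), h⟩) = φ x) ∧
      ρ st = (if hy : y = y0 then φ x0 else (g ⟨y, hy⟩ : A)) := by
    intro y
    let F : A → A := fun a =>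
      if (ε.symm a).1.2 = y then φ (ε.symm a).1.1
      else if hy : y = y0 then φ x0 else (g ⟨y, hy⟩ : A)
    let s : Finset A := univ.filter (fun a => (ε.symm a).1.2 = y ∨ a = st)
    have hFst : F st = (if hy : y = y0 then φ x0 else (g ⟨y, hy⟩ : A)) := by
      by_cases hy : y = y0
      · subst hy
        simp only [F, hst, Equiv.symm_apply_apply, if_true, dif_pos]
      · simp only [F, hst, Equiv.symm_apply_apply]
        rw [if_neg (fun h => hy h.symm)]
    have hs : Set.InjOn F (s : Set A) := by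
      intro a ha b hb hab
      simp only [s, coe_filter, mem_univ, true_and, Set.mem_ofPred_eq] at ha hb
      have key : ∀ c : A, (ε.symm c).1.2 = y → F c = φ (ε.symm c).1.1 := fun c hc => by
        simp only [F, hc, if_true]
      have key2 : ∀ c : A, (ε.symm c).1.2 = y → F st = F c → c = st := by
        intro c hc hcs
        rw [hFst, key c hc] at hcs
        by_cases hy : y = y0
        · rw [dif_pos hy] at hcs
          have h1 := φ.injective hcs
          apply ε.symm.injective
          apply Subtype.ext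
          rw [hst, Equiv.symm_apply_apply]
          exact Prod.ext h1.symm (hc.trans hy)
        · rw [dif_neg hy] at hcs
          exact absurd ⟨_, hcs.symm⟩ (g ⟨y, hy⟩).2
      rcases ha with ha | ha
      · rcases hb with hb | hb
        · rw [key a ha, key b hb] at hab
          have h1 := φ.injective hab
          apply ε.symm.injective
          apply Subtype.ext
          exact Prod.ext h1 (ha.trans hb.symm)
        · rw [hb] at hab ⊢
          exact key2 a ha hab.symm
      · rcases hb with hb | hb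
        · rw [ha] at hab ⊢
          exact (key2 b hb hab).symm
        · rw [ha, hb]
    obtain ⟨ρ, hρ⟩ := exists_perm s F hs
    refine ⟨ρ, ?_, ?_⟩
    · intro x h
      rw [hρ]
      · simp only [F, Equiv.symm_apply_apply, if_true]
      · simp only [s, mem_filter, mem_univ, true_and, Equiv.symm_apply_apply]
        exact Or.inl trivial
    · rw [hρ, hFst]
      simp only [s, mem_filter, mem_univ, true_and]
      exact Or.inr trivial
  choose ρ hρ1 hρ2 using hex
  refine ⟨ρ, ?_, fun x y h => hρ1 y x h⟩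
  intro y y' he
  have h1 : ρ y st = ρ y' st := by rw [he]
  rw [hρ2, hρ2] at h1
  by_cases hy : y = y0
  · by_cases hy' : y' = y0
    · rw [hy, hy']
    · rw [dif_pos hy, dif_neg hy'] at h1
      exact absurd ⟨_, h1⟩ (g ⟨y', hy'⟩).2
  · by_cases hy' : y' = y0
    · rw [dif_neg hy, dif_pos hy'] at h1
      exact absurd ⟨_, h1.symm⟩ (g ⟨y, hy⟩).2
    · rw [dif_neg hy, dif_neg hy'] at h1
      have h2 := g.injective (Subtype.ext h1)
      exact congrArg Subtype.val h2

/-- a balanced tree decomposes `K_{A, Perm A × M}` -/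
theorem balanced_dec {n : ℕ} {V : Type} [Fintype V] {T : SimpleGraph V} (hn : 1 ≤ n)
    (hT : IsBalancedTree n T) {A : Type} [Fintype A] (hA : Fintype.card A = 2 * n - 1)
    (M : Type) [Fintype M] :
    ∃ f : (Equiv.Perm A × M) → V → A ⊕ (Equiv.Perm A × M),
      (∀ i, Function.Injective (f i)) ∧
      (∀ i a b, T.Adj a b → (completeBipartiteGraph A (Equiv.Perm A × M)).Adj (f i a) (f i b)) ∧
      ∀ x y, (completeBipartiteGraph A (Equiv.Perm A × M)).Adj x y →
        ∃! i, ∃ a b, T.Adj a b ∧ f i a = x ∧ f i b = y := by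
  obtain ⟨hTree, X, hX1, hX2, hX⟩ := hT
  let N : {v : V // v ∈ X} → {v : V // v ∉ X} → Prop := fun x y => T.Adj x.1 y.1
  have hcX : Fintype.card {v : V // v ∈ X} = n := by
    rw [← hX1, ← Nat.card_coe_set_eq, Nat.card_eq_fintype_card]
  have hcY : Fintype.card {v : V // v ∉ X} = n := by
    rw [← hX2, ← Nat.card_coe_set_eq, Nat.card_eq_fintype_card]
    exact Fintype.card_congr (Equiv.refl _)
  -- the number of edges
  have hE : Fintype.card {p : {v : V // v ∈ X} × {v : V // v ∉ X} // N p.1 p.2} = 2 * n - 1 := by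
    have h1 := hTree.card_edgeFinset
    have hV : Fintype.card V = 2 * n := by
      have h2 := Fintype.card_subtype_compl (fun v : V => v ∈ X)
      have h3 := Fintype.card_subtype_le (fun v : V => v ∈ X)
      rw [hcX] at h2 h3
      have h4 : Fintype.card {v : V // ¬ v ∈ X} = n := hcY
      omega
    have h5 : Fintype.card {p : {v : V // v ∈ X} × {v : V // v ∉ X} // N p.1 p.2} =
        T.edgeFinset.card := by
      rw [← Fintype.card_coe]
      apply Fintype.card_of_bijective
        (f := fun p => (⟨s(p.1.1.1, p.1.2.1), by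
          rw [SimpleGraph.mem_edgeFinset, SimpleGraph.mem_edgeSet]; exact p.2⟩ :
            {e : Sym2 V // e ∈ T.edgeFinset}))
      constructor
      · rintro ⟨⟨x, y⟩, h⟩ ⟨⟨x', y'⟩, h'⟩ he
        have he' := congrArg Subtype.val he
        simp only [Sym2.eq_iff] at he'
        rcases he' with ⟨h6, h7⟩ | ⟨h6, h7⟩
        · have e1 : x = x' := Subtype.ext h6
          have e2 : y = y' := Subtype.ext h7
          subst e1; subst e2; rfl
        · exact absurd (h6 ▸ x.2) y'.2
      · rintro ⟨e, he⟩
        induction e using Sym2.ind with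
        | _ a b =>
          rw [SimpleGraph.mem_edgeFinset, SimpleGraph.mem_edgeSet] at he
          by_cases ha : a ∈ X
          · refine ⟨⟨(⟨a, ha⟩, ⟨b, (hX a b he).1 ha⟩), he⟩, ?_⟩
            rfl
          · have hb : b ∈ X := by
              by_contra hb
              exact ha ((hX a b he).2 hb)
            refine ⟨⟨(⟨b, hb⟩, ⟨a, ha⟩), he.symm⟩, ?_⟩
            apply Subtype.ext
            exact Sym2.eq_swap
    rw [h5]
    omega
  obtain ⟨ε⟩ : Nonempty ({p : {v : V // v ∈ X} × {v : V // v ∉ X} // N p.1 p.2} ≃ A) :=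
    ⟨Fintype.equivOfCardEq (by rw [hE, hA])⟩
  obtain ⟨φ⟩ : Nonempty ({v : V // v ∈ X} ↪ A) :=
    Function.Embedding.nonempty_of_card_le (by rw [hcX, hA]; omega)
  have hEne : Nonempty {p : {v : V // v ∈ X} × {v : V // v ∉ X} // N p.1 p.2} :=
    Fintype.card_pos_iff.1 (by rw [hE]; omega)
  obtain ⟨ρ, hρ1, hρ2⟩ := group_dec N ε φ (by rw [hcX, hcY, hA]; omega) hEne
  -- the copies
  let f : (Equiv.Perm A × M) → V → A ⊕ (Equiv.Perm A × M) := fun i v =>
    if h : v ∈ X then Sum.inl (i.1 (φ ⟨v, h⟩)) else Sum.inr (i.1 * ρ ⟨v, h⟩, i.2)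
  have f1 : ∀ i v (h : v ∈ X), f i v = Sum.inl (i.1 (φ ⟨v, h⟩)) := fun i v h => dif_pos h
  have f2 : ∀ i v (h : v ∉ X), f i v = Sum.inr (i.1 * ρ ⟨v, h⟩, i.2) := fun i v h => dif_neg h
  refine ⟨f, ?_, ?_, ?_⟩
  · intro i v w hvw
    by_cases hv : v ∈ X
    · by_cases hw : w ∈ X
      · rw [f1 i v hv, f1 i w hw] at hvw
        have h1 := φ.injective (i.1.injective (Sum.inl.inj hvw))
        exact congrArg Subtype.val h1
      · rw [f1 i v hv, f2 i w hw] at hvw
        exact absurd hvw (by simp)
    · by_cases hw : w ∈ X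
      · rw [f2 i v hv, f1 i w hw] at hvw
        exact absurd hvw (by simp)
      · rw [f2 i v hv, f2 i w hw] at hvw
        have h1 := congrArg Prod.fst (Sum.inr.inj hvw)
        have h2 := hρ1 (mul_left_cancel h1)
        exact congrArg Subtype.val h2
  · intro i a b hab
    by_cases ha : a ∈ X
    · have hb := (hX a b hab).1 ha
      rw [f1 i a ha, f2 i b hb]
      simp
    · have hb : b ∈ X := by
        by_contra hb
        exact ha ((hX a b hab).2 hb)
      rw [f2 i a ha, f1 i b hb]
      simp
  · -- unique copy through an edge (a, (τ, m))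
    have key : ∀ (a : A) (t : Equiv.Perm A × M), ∃! i, ∃ v w, T.Adj v w ∧
        f i v = Sum.inl a ∧ f i w = Sum.inr t := by
      rintro a ⟨τ, m⟩
      obtain ⟨⟨⟨x, y⟩, hxy⟩, hp⟩ : ∃ p, p = ε.symm (τ⁻¹ a) := ⟨_, rfl⟩
      have hεp : ε ⟨(x, y), hxy⟩ = τ⁻¹ a := by
        rw [hp, Equiv.apply_symm_apply]
      refine ⟨(τ * (ρ y)⁻¹, m), ⟨x.1, y.1, hxy, ?_, ?_⟩, ?_⟩
      · rw [f1 _ _ x.2]
        congr 1
        simp only [Subtype.coe_eta, Equiv.Perm.coe_mul, Function.comp_apply]
        have h1 := hρ2 x y hxy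
        rw [hεp] at h1
        rw [← h1]
        simp
      · rw [f2 _ _ y.2]
        simp
      · rintro ⟨σ, m'⟩ ⟨v, w, hvw, hv, hw⟩
        have hvX : v ∈ X := by
          by_contra h
          rw [f2 _ _ h] at hv
          exact absurd hv (by simp)
        have hwX : w ∉ X := (hX v w hvw).1 hvX
        rw [f1 _ _ hvX] at hv
        rw [f2 _ _ hwX] at hw
        have hv' := Sum.inl.inj hv
        have hw' := Sum.inr.inj hw
        simp only [Prod.mk.injEq] at hw'
        obtain ⟨hw1, hw2⟩ := hw'
        simp only at hv' hw1 hw2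
        have hN : N ⟨v, hvX⟩ ⟨w, hwX⟩ := hvw
        have h1 := hρ2 ⟨v, hvX⟩ ⟨w, hwX⟩ hN
        have h2 : ε ⟨(⟨v, hvX⟩, ⟨w, hwX⟩), hN⟩ = τ⁻¹ a := by
          rw [← hw1, ← hv', ← h1]
          simp
        have h3 := ε.injective (h2.trans hεp.symm)
        have h4 := congrArg (fun p => p.1.2) h3
        simp only at h4
        rw [← hw2, ← hw1, h4]
        simp
    intro p q hpq
    rcases p with a | t
    · rcases q with a' | t
      · exact absurd hpq (by simp)
      · exact key a t
    · rcases q with a | t'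
      · obtain ⟨i, ⟨v, w, h1, h2, h3⟩, h4⟩ := key a t
        refine ⟨i, ⟨w, v, h1.symm, h3, h2⟩, ?_⟩
        rintro j ⟨v', w', h5, h6, h7⟩
        exact h4 j ⟨w', v', h5.symm, h7, h6⟩
      · exact absurd hpq (by simp)

/-- all positive multiples of `(2n-1)!` are in `S n` -/
theorem mem_S {n m : ℕ} (hn : 1 ≤ n) (hm : 1 ≤ m) : m * (2 * n - 1).factorial ∈ S n := by
  refine ⟨Nat.mul_pos hm (Nat.factorial_pos _), ?_⟩
  intro V _ T hT
  have hc : Fintype.card (Equiv.Perm (Fin (2 * n - 1)) × Fin m) =
      m * (2 * n - 1).factorial := by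
    rw [Fintype.card_prod, Fintype.card_perm, Fintype.card_fin, Fintype.card_fin, mul_comm]
  obtain ⟨f, hf1, hf2, hf3⟩ := balanced_dec hn hT (A := Fin (2 * n - 1)) (by simp) (Fin m)
  let e : Equiv.Perm (Fin (2 * n - 1)) × Fin m ≃ Fin (m * (2 * n - 1).factorial) :=
    Fintype.equivFinOfCardEq hc
  refine ⟨m * (2 * n - 1).factorial, fun i v => Sum.map id e (f (e.symm i) v), ?_, ?_, ?_⟩
  · intro i v w h
    apply hf1 (e.symm i)
    exact (Sum.map_injective.2 ⟨Function.injective_id, e.injective⟩) h
  · intro i a b hab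
    have h := hf2 (e.symm i) a b hab
    rcases h1 : f (e.symm i) a with u | u <;> rcases h2 : f (e.symm i) b with w | w <;>
      rw [h1, h2] at h <;> simp [h1, h2] at h ⊢
  · have key : ∀ (x y : Fin (2 * n - 1) ⊕ (Equiv.Perm (Fin (2 * n - 1)) × Fin m)),
        (completeBipartiteGraph (Fin (2 * n - 1))
          (Equiv.Perm (Fin (2 * n - 1)) × Fin m)).Adj x y →
        ∃! i, ∃ a b, T.Adj a b ∧ Sum.map id e (f (e.symm i) a) = Sum.map id e x ∧
          Sum.map id e (f (e.symm i) b) = Sum.map id e y := by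
      intro x y hxy
      have hinj := (Sum.map_injective.2 ⟨Function.injective_id (α := Fin (2 * n - 1)),
        e.injective⟩)
      obtain ⟨i, ⟨a, b, h1, h2, h3⟩, h4⟩ := hf3 x y hxy
      refine ⟨e i, ⟨a, b, h1, ?_, ?_⟩, ?_⟩
      · rw [Equiv.symm_apply_apply, h2]
      · rw [Equiv.symm_apply_apply, h3]
      · rintro j ⟨a', b', h5, h6, h7⟩
        have h8 := h4 (e.symm j) ⟨a', b', h5, hinj h6, hinj h7⟩
        rw [← h8, Equiv.apply_symm_apply]
    intro x y hxy
    rcases x with x | x <;> rcases y with y | y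
    · exact absurd hxy (by simp)
    · have := key (Sum.inl x) (Sum.inr (e.symm y)) (by simp)
      simpa using this
    · have := key (Sum.inr (e.symm x)) (Sum.inl y) (by simp)
      simpa using this
    · exact absurd hxy (by simp)

end Pool.Agent.R39.Dec
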