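import Mathlib
import Pool.Agent.R39.Dec.Group

set_option autoImplicit false
set_option linter.unusedSectionVars false

/-! # The lattice argument -/

namespace Pool.Agent.R39.Dec

open Finset Classical

variable {A Y : Type} [Fintype A] [Fintype Y]

/-- action of a permutation on finsets -/
def act (σ : Equiv.Perm A) (R : Finset A) : Finset A := R.map σ.toEmbedding

lemma mem_act {σ : Equiv.Perm A} {R : Finset A} {a : A} : a ∈ act σ R ↔ σ⁻¹ a ∈ R := by
  unfold act
  rw [mem_map]
  constructor
  · rintro ⟨b, hb, rfl⟩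
    simpa using hb
  · intro h
    exact ⟨σ⁻¹ a, h, by simp⟩

lemma act_mul (σ τ : Equiv.Perm A) (R : Finset A) : act (σ * τ) R = act σ (act τ R) := by
  ext a
  rw [mem_act, mem_act, mem_act, mul_inv_rev]
  rfl

lemma act_one (R : Finset A) : act 1 R = R := by
  ext a
  rw [mem_act]
  simp

lemma card_act (σ : Equiv.Perm A) (R : Finset A) : (act σ R).card = R.card := by
  unfold act
  rw [card_map]

lemma act_swap_of {a b : A} {R : Finset A} (h : a ∈ R ↔ b ∈ R) : act (Equiv.swap a b) R = R := by
  ext x
  rw [mem_act, Equiv.swap_inv]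
  by_cases h1 : x = a
  · rw [h1, Equiv.swap_apply_left]
    exact h.symm
  · by_cases h2 : x = b
    · rw [h2, Equiv.swap_apply_right]
      exact h
    · rw [Equiv.swap_apply_of_ne_of_ne h1 h2]

lemma exists_perm_family (F F' : Y → Finset A)
    (hF : ∀ y y', y ≠ y' → Disjoint (F y) (F y')) (hF' : ∀ y y', y ≠ y' → Disjoint (F' y) (F' y'))
    (hc : ∀ y, (F y).card = (F' y).card) : ∃ τ : Equiv.Perm A, ∀ y, act τ (F y) = F' y := by
  have he : ∀ y, ∃ g : A → A, Set.InjOn g (F y : Set A) ∧ ∀ a ∈ F y, g a ∈ F' y := by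
    intro y
    let e : {x // x ∈ F y} ≃ {x // x ∈ F' y} := Fintype.equivOfCardEq (by
      rw [Fintype.card_coe, Fintype.card_coe, hc])
    refine ⟨fun a => if h : a ∈ F y then (e ⟨a, h⟩ : A) else a, ?_, ?_⟩
    · intro a ha b hb hab
      rw [mem_coe] at ha hb
      simp only [ha, hb, dif_pos] at hab
      have := e.injective (Subtype.ext hab)
      exact congrArg Subtype.val this
    · intro a ha
      simp only [ha, dif_pos]
      exact (e ⟨a, ha⟩).2
  choose g hg1 hg2 using he
  let f : A → A := fun a => if h : ∃ y, a ∈ F y then g h.choose a else a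
  have hf : ∀ y, ∀ a ∈ F y, f a = g y a := by
    intro y a ha
    have h : ∃ y, a ∈ F y := ⟨y, ha⟩
    have h1 : h.choose = y := by
      by_contra hne
      exact disjoint_left.1 (hF _ _ hne) h.choose_spec ha
    simp only [f, dif_pos h, h1]
  obtain ⟨τ, hτ⟩ := exists_perm (univ.biUnion F) f (by
    intro a ha b hb hab
    rw [mem_coe, mem_biUnion] at ha hb
    obtain ⟨y, _, ha⟩ := ha
    obtain ⟨y', _, hb⟩ := hb
    rw [hf y a ha, hf y' b hb] at hab
    by_cases hyy : y = y'
    · subst hyy
      exact hg1 y ha hb hab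
    · have h1 := hg2 y a ha
      have h2 := hg2 y' b hb
      rw [← hab] at h2
      exact absurd h2 (disjoint_left.1 (hF' y y' hyy) h1))
  refine ⟨τ, fun y => ?_⟩
  apply eq_of_subset_of_card_le
  · intro a ha
    unfold act at ha
    rw [mem_map] at ha
    obtain ⟨b, hb, rfl⟩ := ha
    have : τ b = f b := hτ b (mem_biUnion.2 ⟨y, mem_univ _, hb⟩)
    show τ b ∈ F' y
    rw [this, hf y b hb]
    exact hg2 y b hb
  · rw [card_act, hc]

/-- the indicator of a set of subsets -/
noncomputable def sg (R : Finset A) : Finset A → ℤ := Pi.single R 1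

/-- the counting function of a family of sets -/
noncomputable def cnt (F : Y → Finset A) : Finset A → ℤ := ∑ y, sg (F y)

noncomputable def CC (F : Y → Finset A) (f : Equiv.Perm A → ℤ) : Finset A → ℤ :=
  ∑ σ, f σ • cnt (fun y => act σ (F y))

lemma CC_add (F : Y → Finset A) (f g : Equiv.Perm A → ℤ) : CC F (f + g) = CC F f + CC F g := by
  unfold CC
  rw [← sum_add_distrib]
  apply sum_congr rfl
  intro σ _
  rw [Pi.add_apply, add_smul]

lemma CC_neg (F : Y → Finset A) (f : Equiv.Perm A → ℤ) : CC F (-f) = - CC F f := by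
  unfold CC
  rw [← sum_neg_distrib]
  apply sum_congr rfl
  intro σ _
  rw [Pi.neg_apply, neg_smul]

lemma CC_sub (F : Y → Finset A) (f g : Equiv.Perm A → ℤ) : CC F (f - g) = CC F f - CC F g := by
  rw [sub_eq_add_neg, CC_add, CC_neg, ← sub_eq_add_neg]

lemma CC_smul (F : Y → Finset A) (r : ℤ) (f : Equiv.Perm A → ℤ) : CC F (r • f) = r • CC F f := by
  unfold CC
  rw [smul_sum]
  apply sum_congr rfl
  intro σ _
  rw [Pi.smul_apply, smul_eq_mul, mul_smul]

lemma CC_single (F : Y → Finset A) (σ : Equiv.Perm A) :
    CC F (Pi.single σ 1) = cnt (fun y => act σ (F y)) := by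
  unfold CC
  rw [sum_eq_single σ]
  · rw [Pi.single_eq_same, one_smul]
  · intro τ _ hτ
    rw [Pi.single_eq_of_ne hτ, zero_smul]
  · intro h
    exact absurd (mem_univ σ) h

/-- the lattice -/
def InL (S P : Y → Finset A) (w : Finset A → ℤ) : Prop :=
  ∃ f g : Equiv.Perm A → ℤ, ∑ σ, f σ = 0 ∧ ∑ σ, g σ = 0 ∧ w = CC S f - CC P g

section

variable {S P : Y → Finset A}

lemma InL_zero : InL S P 0 := by
  refine ⟨0, 0, by simp, by simp, ?_⟩
  have h1 := CC_sub S 0 0
  have h2 := CC_sub P 0 0
  simp only [sub_self] at h1 h2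
  rw [h1, h2, sub_self]

lemma InL_add {w w' : Finset A → ℤ} (h : InL S P w) (h' : InL S P w') : InL S P (w + w') := by
  obtain ⟨f, g, h1, h2, h3⟩ := h
  obtain ⟨f', g', h1', h2', h3'⟩ := h'
  refine ⟨f + f', g + g', ?_, ?_, ?_⟩
  · simp only [Pi.add_apply, sum_add_distrib, h1, h1', add_zero]
  · simp only [Pi.add_apply, sum_add_distrib, h2, h2', add_zero]
  · rw [CC_add, CC_add, h3, h3']
    abel

lemma InL_neg {w : Finset A → ℤ} (h : InL S P w) : InL S P (-w) := by
  obtain ⟨f, g, h1, h2, h3⟩ := h
  refine ⟨-f, -g, ?_, ?_, ?_⟩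
  · simp only [Pi.neg_apply, sum_neg_distrib, h1, neg_zero]
  · simp only [Pi.neg_apply, sum_neg_distrib, h2, neg_zero]
  · rw [CC_neg, CC_neg, h3]
    abel

lemma InL_sub {w w' : Finset A → ℤ} (h : InL S P w) (h' : InL S P w') : InL S P (w - w') := by
  rw [sub_eq_add_neg]
  exact InL_add h (InL_neg h')

lemma InL_sum {ι : Type} (s : Finset ι) (w : ι → Finset A → ℤ) (h : ∀ i ∈ s, InL S P (w i)) :
    InL S P (∑ i ∈ s, w i) := by
  induction s using Finset.induction_on with
  | empty => simpa using InL_zero
  | insert i s hi ih =>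
    rw [sum_insert hi]
    exact InL_add (h i (mem_insert_self i s)) (ih (fun j hj => h j (mem_insert_of_mem hj)))

lemma InL_copy (σ τ : Equiv.Perm A) :
    InL S P (cnt (fun y => act σ (S y)) - cnt (fun y => act τ (S y))) := by
  refine ⟨Pi.single σ 1 - Pi.single τ 1, 0, ?_, by simp, ?_⟩
  · simp only [Pi.sub_apply, sum_sub_distrib]
    simp
  · rw [CC_sub, CC_single, CC_single]
    have h2 := CC_sub P 0 0
    simp only [sub_self] at h2
    rw [h2, sub_zero]

lemma InL_bin (σ τ : Equiv.Perm A) :
    InL S P (cnt (fun y => act σ (P y)) - cnt (fun y => act τ (P y))) := by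
  refine ⟨0, Pi.single τ 1 - Pi.single σ 1, by simp, ?_, ?_⟩
  · simp only [Pi.sub_apply, sum_sub_distrib]
    simp
  · rw [CC_sub, CC_single, CC_single]
    have h2 := CC_sub S 0 0
    simp only [sub_self] at h2
    rw [h2]
    abel

/-- moving one element in a big part: trade with a singleton -/
lemma InL_trade (hP : ∀ y y', y ≠ y' → Disjoint (P y) (P y')) {y y0 : Y} (hy : y ≠ y0)
    (hy0 : (P y0).card = 1) {R : Finset A} (hR : R.card = (P y).card) {a a' : A} (ha : a ∈ R)
    (ha' : a' ∉ R) :
    InL S P ((sg R - sg (act (Equiv.swap a a') R)) - (sg {a} - sg {a'})) := by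
  -- a bin with parts `R` and `{a'}`
  have hex : ∃ τ : Equiv.Perm A, act τ (P y) = R ∧ act τ (P y0) = {a'} := by
    obtain ⟨τ, hτ⟩ := exists_perm_family (Y := Bool)
      (fun b => if b then P y else P y0) (fun b => if b then R else {a'})
      (by
        intro b b' hbb
        rcases b <;> rcases b' <;> simp only [if_true, Bool.false_eq_true, if_false] <;>
          first | exact absurd rfl hbb | exact hP _ _ hy | exact (hP _ _ hy).symm)
      (by
        intro b b' hbb
        rcases b <;> rcases b' <;> simp only [if_true, Bool.false_eq_true, if_false] <;>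
          first | exact absurd rfl hbb | skip
        · rw [disjoint_singleton_left]; exact ha'
        · rw [disjoint_singleton_right]; exact ha')
      (by
        intro b
        rcases b <;> simp only [if_true, Bool.false_eq_true, if_false]
        · rw [hy0, card_singleton]
        · rw [hR])
    refine ⟨τ, ?_, ?_⟩
    · have := hτ true
      simpa using this
    · have := hτ false
      simpa using this
  obtain ⟨τ, hτ1, hτ2⟩ := hex
  have h := InL_bin (S := S) (P := P) τ (Equiv.swap a a' * τ)
  have haa : a ≠ a' := fun h => ha' (h ▸ ha)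
  have hdisj : ∀ z z', z ≠ z' → Disjoint (act τ (P z)) (act τ (P z')) := by
    intro z z' hz
    unfold act
    rw [disjoint_map]
    exact hP z z' hz
  have heq : cnt (fun z => act τ (P z)) - cnt (fun z => act (Equiv.swap a a' * τ) (P z)) =
      (sg R - sg (act (Equiv.swap a a') R)) - (sg {a} - sg {a'}) := by
    unfold cnt
    rw [← sum_sub_distrib]
    have hz : ∀ z ∈ (univ : Finset Y), z ∉ ({y, y0} : Finset Y) →
        sg (act τ (P z)) - sg (act (Equiv.swap a a' * τ) (P z)) = 0 := by
      intro z _ hz
      rw [mem_insert, mem_singleton, not_or] at hz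
      rw [act_mul, act_swap_of, sub_self]
      have h1 : a ∉ act τ (P z) := by
        have := hdisj z y hz.1
        rw [hτ1] at this
        exact disjoint_right.1 this ha
      have h2 : a' ∉ act τ (P z) := by
        have := hdisj z y0 hz.2
        rw [hτ2] at this
        exact disjoint_right.1 this (mem_singleton_self _)
      exact ⟨fun h => absurd h h1, fun h => absurd h h2⟩
    rw [← sum_subset (subset_univ ({y, y0} : Finset Y)) hz, sum_pair hy, act_mul, act_mul, hτ1,
      hτ2]
    have h3 : act (Equiv.swap a a') {a'} = {a} := by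
      ext x
      rw [mem_act, Equiv.swap_inv, mem_singleton, mem_singleton]
      constructor
      · intro h
        have := congrArg (Equiv.swap a a') h
        rwa [Equiv.swap_apply_self, Equiv.swap_apply_right] at this
      · rintro rfl
        exact Equiv.swap_apply_left _ _
    rw [h3]
    abel
  rw [heq] at h
  exact h

/-- singletons are equivalent -/
lemma InL_singleton (hP : ∀ y y', y ≠ y' → Disjoint (P y) (P y')) {y1 y0 : Y} (hy : y1 ≠ y0)
    (hy0 : (P y0).card = 1) (hSP : (S y1).card = (P y1).card) {a0 a1 : A} (h0 : a0 ∈ S y1)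
    (h0' : ∀ y, y ≠ y1 → a0 ∉ S y) (h1 : ∀ y, a1 ∉ S y) (a a' : A) :
    InL S P (sg {a} - sg {a'}) := by
  by_cases haa : a = a'
  · rw [haa, sub_self]
    exact InL_zero
  have h01 : a0 ≠ a1 := fun h => h1 y1 (h ▸ h0)
  obtain ⟨γ, hγ⟩ := exists_perm ({a0, a1} : Finset A) (fun x => if x = a0 then a else a') (by
    intro x hx z hz hxz
    rw [mem_coe, mem_insert, mem_singleton] at hx hz
    rcases hx with rfl | rfl <;> rcases hz with rfl | rfl
    · rfl
    · simp only [if_true, if_neg h01.symm] at hxz
      exact absurd hxz haa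
    · simp only [if_true, if_neg h01.symm] at hxz
      exact absurd hxz.symm haa
    · rfl)
  have hγ0 : γ a0 = a := by
    rw [hγ a0 (by simp)]
    simp
  have hγ1 : γ a1 = a' := by
    rw [hγ a1 (by simp)]
    simp [h01.symm]
  have hm : ∀ y, a ∈ act γ (S y) ↔ a0 ∈ S y := by
    intro y
    rw [mem_act, ← hγ0]
    simp
  have hm' : ∀ y, a' ∈ act γ (S y) ↔ a1 ∈ S y := by
    intro y
    rw [mem_act, ← hγ1]
    simp
  have h := InL_copy (S := S) (P := P) γ (Equiv.swap a a' * γ)
  have heq : cnt (fun z => act γ (S z)) - cnt (fun z => act (Equiv.swap a a' * γ) (S z)) =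
      sg (act γ (S y1)) - sg (act (Equiv.swap a a') (act γ (S y1))) := by
    unfold cnt
    rw [← sum_sub_distrib]
    rw [sum_eq_single y1]
    · beta_reduce
      rw [act_mul]
    · intro z _ hz
      beta_reduce
      rw [act_mul, act_swap_of, sub_self]
      rw [hm, hm']
      exact ⟨fun h => absurd h (h0' z hz), fun h => absurd h (h1 z)⟩
    · intro h
      exact absurd (mem_univ _) h
  rw [heq] at h
  have h2 := InL_trade (S := S) hP hy hy0 (R := act γ (S y1)) (by rw [card_act, hSP])
    ((hm y1).2 h0) (fun h => h1 y1 ((hm' y1).1 h))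
  have h3 := InL_sub h h2
  rw [sub_sub_cancel] at h3
  exact h3

lemma InL_perm (hP : ∀ y y', y ≠ y' → Disjoint (P y) (P y')) {y1 y0 : Y} (hy : y1 ≠ y0)
    (hy0 : (P y0).card = 1) (hSP : (S y1).card = (P y1).card) {a0 a1 : A} (h0 : a0 ∈ S y1)
    (h0' : ∀ y, y ≠ y1 → a0 ∉ S y) (h1 : ∀ y, a1 ∉ S y) (y : Y) (R R' : Finset A)
    (hR : R.card = (P y).card) (hR' : R'.card = (P y).card) :
    InL S P (sg R - sg R') := by
  have hs := InL_singleton hP hy hy0 hSP h0 h0' h1
  -- one transposition, first form
  have key1 : ∀ (R : Finset A) (a a' : A), R.card = (P y).card → a ∈ R → a' ∉ R →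
      InL S P (sg R - sg (act (Equiv.swap a a') R)) := by
    intro R a a' hR ha ha'
    by_cases hyy : y = y0
    · have hR1 : R.card = 1 := by rw [hR, hyy, hy0]
      obtain ⟨x, hx⟩ := card_eq_one.1 hR1
      rw [hx, mem_singleton] at ha
      rw [hx, ← ha]
      have h3 : act (Equiv.swap a a') {a} = {a'} := by
        ext z
        rw [mem_act, Equiv.swap_inv, mem_singleton, mem_singleton]
        constructor
        · intro h
          have := congrArg (Equiv.swap a a') h
          rwa [Equiv.swap_apply_self, Equiv.swap_apply_left] at this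
        · rintro rfl
          exact Equiv.swap_apply_right _ _
      rw [h3]
      exact hs a a'
    · have h2 := InL_trade (S := S) hP hyy hy0 hR ha ha'
      have h3 := InL_add h2 (hs a a')
      rw [sub_add_cancel] at h3
      exact h3
  have key2 : ∀ (R : Finset A) (a a' : A), R.card = (P y).card →
      InL S P (sg R - sg (act (Equiv.swap a a') R)) := by
    intro R a a' hR
    by_cases ha : a ∈ R
    · by_cases ha' : a' ∈ R
      · rw [act_swap_of (by tauto), sub_self]
        exact InL_zero
      · exact key1 R a a' hR ha ha'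
    · by_cases ha' : a' ∈ R
      · rw [Equiv.swap_comm]
        exact key1 R a' a hR ha' ha
      · rw [act_swap_of (by tauto), sub_self]
        exact InL_zero
  have key3 : ∀ (π : Equiv.Perm A) (R : Finset A), R.card = (P y).card →
      InL S P (sg R - sg (act π R)) := by
    intro π
    induction π using Equiv.Perm.swap_induction_on with
    | one =>
      intro R _
      rw [act_one, sub_self]
      exact InL_zero
    | swap_mul π a b _ ih =>
      intro R hR
      rw [act_mul]
      have h1 := ih R hR
      have h2 := key2 (act π R) a b (by rw [card_act, hR])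
      have h3 := InL_add h1 h2
      rw [sub_add_sub_cancel] at h3
      exact h3
  obtain ⟨π, hπ⟩ := exists_perm_family (Y := Unit) (fun _ => R) (fun _ => R')
    (fun y y' h => absurd rfl h) (fun y y' h => absurd rfl h) (fun _ => by rw [hR, hR'])
  have := key3 π R hR
  rw [hπ ()] at this
  exact this

end

end Pool.Agent.R39.Dec
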