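import Mathlib
import Pool.Agent.R39.Dec.Lattice

set_option autoImplicit false
set_option linter.unusedSectionVars false

/-! # Nonnegative multiplicities -/

namespace Pool.Agent.R39.Dec

open Finset Classical

variable {A Y : Type} [Fintype A] [Fintype Y]

lemma cnt_apply (F : Y → Finset A) (R : Finset A) :
    cnt F R = ((univ.filter (fun y => F y = R)).card : ℤ) := by
  unfold cnt sg
  rw [Finset.sum_apply, card_filter, Nat.cast_sum]
  apply sum_congr rfl
  intro y _
  by_cases h : F y = R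
  · rw [if_pos h, ← h, Pi.single_eq_same]
    rfl
  · rw [if_neg h, Pi.single_eq_of_ne (fun h' => h h'.symm)]
    rfl

lemma CC_apply (F : Y → Finset A) (f : Equiv.Perm A → ℤ) (R : Finset A) :
    CC F f R = ∑ σ, f σ * ((univ.filter (fun y => act σ (F y) = R)).card : ℤ) := by
  unfold CC
  rw [Finset.sum_apply]
  apply sum_congr rfl
  intro σ _
  rw [Pi.smul_apply, smul_eq_mul, cnt_apply]

lemma CC_symm (S P : Y → Finset A) (h : ∀ y, (S y).card = (P y).card) :
    CC S (fun _ => 1) = CC P (fun _ => 1) := by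
  unfold CC cnt
  simp only [one_smul]
  rw [sum_comm, sum_comm (f := fun σ y => sg (act σ (P y)))]
  apply sum_congr rfl
  intro y _
  obtain ⟨π, hπ⟩ := exists_perm_family (Y := Unit) (fun _ => S y) (fun _ => P y)
    (fun y y' h => absurd rfl h) (fun y y' h => absurd rfl h) (fun _ => h y)
  have h1 := hπ ()

  rw [← h1, ← Equiv.sum_comp (Equiv.mulRight π)]
  apply sum_congr rfl
  intro σ _
  rw [Equiv.coe_mulRight, act_mul]

theorem mult {Z : Type} [Fintype Z] (S P : Y → Finset A)
    (hP : ∀ y y', y ≠ y' → Disjoint (P y) (P y')) {y1 y0 : Y} (hy : y1 ≠ y0)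
    (hy0 : (P y0).card = 1) (hSP : ∀ y, (S y).card = (P y).card) {a0 a1 : A} (h0 : a0 ∈ S y1)
    (h0' : ∀ y, y ≠ y1 → a0 ∉ S y) (h1 : ∀ y, a1 ∉ S y) (V : Z → Y → Finset A)
    (hV : ∀ z y, (V z y).card = (P y).card) (M : ℕ) :
    ∃ (N : ℕ) (α β : Equiv.Perm A → ℕ), (∀ σ, M ≤ α σ) ∧
      ∑ σ, α σ = N * Fintype.card (Equiv.Perm A) ∧
      ∑ σ, β σ + Fintype.card Z = N * Fintype.card (Equiv.Perm A) ∧ 1 ≤ N ∧
      ∀ R : Finset A, ∑ σ, α σ * (univ.filter (fun y => act σ (S y) = R)).card =
        ∑ σ, β σ * (univ.filter (fun y => act σ (P y) = R)).card +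
        (univ.filter (fun zy : Z × Y => V zy.1 zy.2 = R)).card := by
  have hL : InL S P (∑ z : Z, (cnt (V z) - cnt P)) := by
    apply InL_sum
    intro z _
    unfold cnt
    rw [← sum_sub_distrib]
    apply InL_sum
    intro y _
    exact InL_perm hP hy hy0 (hSP y1) h0 h0' h1 y _ _ (hV z y) rfl
  obtain ⟨f, g, hf, hg, hfg⟩ := hL
  let K : ℕ := ∑ σ, ((f σ).natAbs + (g σ).natAbs)
  have hK : ∀ σ, (f σ).natAbs + (g σ).natAbs ≤ K := fun σ =>
    single_le_sum (f := fun σ => (f σ).natAbs + (g σ).natAbs) (fun _ _ => Nat.zero_le _)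
      (mem_univ σ)
  let N : ℕ := M + Fintype.card Z + K + 1
  let m : Equiv.Perm A → ℤ := Pi.single 1 (Fintype.card Z : ℤ)
  have hm : ∀ σ, 0 ≤ m σ ∧ m σ ≤ Fintype.card Z := by
    intro σ
    by_cases h : σ = 1
    · simp only [m, h, Pi.single_eq_same]
      omega
    · simp only [m, Pi.single_eq_of_ne h]
      omega
  have hmsum : ∑ σ, m σ = Fintype.card Z := by
    simp only [m]
    rw [sum_pi_single']
    simp
  let α : Equiv.Perm A → ℕ := fun σ => (N + f σ).toNat
  let β : Equiv.Perm A → ℕ := fun σ => (N + g σ - m σ).toNat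
  have hα : ∀ σ, (α σ : ℤ) = N + f σ := by
    intro σ
    simp only [α]
    rw [Int.toNat_of_nonneg]
    have := hK σ
    simp only [N]
    omega
  have hβ : ∀ σ, (β σ : ℤ) = N + g σ - m σ := by
    intro σ
    simp only [β]
    rw [Int.toNat_of_nonneg]
    have := hK σ
    have := hm σ
    simp only [N]
    omega
  refine ⟨N, α, β, ?_, ?_, ?_, ?_, ?_⟩
  · intro σ
    have h2 := hα σ
    have := hK σ
    have h3 : (N : ℤ) = M + Fintype.card Z + K + 1 := by simp only [N]; push_cast; rfl
    omega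
  · have : ((∑ σ, α σ : ℕ) : ℤ) = ((N * Fintype.card (Equiv.Perm A) : ℕ) : ℤ) := by
      rw [Nat.cast_sum, sum_congr rfl (fun σ _ => hα σ), sum_add_distrib, hf, sum_const, card_univ]
      push_cast
      ring
    exact_mod_cast this
  · have : ((∑ σ, β σ + Fintype.card Z : ℕ) : ℤ) = ((N * Fintype.card (Equiv.Perm A) : ℕ) : ℤ) := by
      rw [Nat.cast_add, Nat.cast_sum, sum_congr rfl (fun σ _ => hβ σ), sum_sub_distrib,
        sum_add_distrib, hg, hmsum, sum_const, card_univ]
      push_cast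
      ring
    exact_mod_cast this
  · simp only [N]
    omega
  · intro R
    -- the identity of functions
    have e1 : CC S (fun σ => (α σ : ℤ)) = (N : ℤ) • CC S (fun _ => 1) + CC S f := by
      rw [← CC_smul, ← CC_add]
      congr 1
      funext σ
      rw [hα σ]
      simp
    have e2 : CC P (fun σ => (β σ : ℤ)) = (N : ℤ) • CC P (fun _ => 1) + CC P g - CC P m := by
      rw [← CC_smul, ← CC_add, ← CC_sub]
      congr 1
      funext σ
      rw [hβ σ]
      simp
    have e3 : CC P m = (Fintype.card Z : ℤ) • cnt P := by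
      have h2 : m = (Fintype.card Z : ℤ) • (Pi.single 1 1 : Equiv.Perm A → ℤ) := by
        funext σ
        by_cases h : σ = 1
        · simp [m, h]
        · simp [m, h]
      rw [h2, CC_smul, CC_single]
      simp only [act_one]
    have e4 : CC S (fun σ => (α σ : ℤ)) = CC P (fun σ => (β σ : ℤ)) + ∑ z : Z, cnt (V z) := by
      rw [e1, e2, e3, CC_symm S P hSP]
      rw [sum_sub_distrib, sum_const, card_univ] at hfg
      have h2 : CC S f = ∑ z : Z, cnt (V z) - Fintype.card Z • cnt P + CC P g := by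
        rw [hfg]
        abel
      rw [h2, ← natCast_zsmul]
      abel
    have e5 := congrFun e4 R
    rw [Pi.add_apply, CC_apply, CC_apply, Finset.sum_apply] at e5
    have e6 : ∑ z : Z, cnt (V z) R =
        ((univ.filter (fun zy : Z × Y => V zy.1 zy.2 = R)).card : ℤ) := by
      rw [card_filter, Nat.cast_sum, Fintype.sum_prod_type]
      apply sum_congr rfl
      intro z _
      rw [cnt_apply, card_filter, Nat.cast_sum]
    rw [e6] at e5
    exact_mod_cast e5

end Pool.Agent.R39.Dec
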