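import Mathlib

set_option autoImplicit false
set_option linter.unusedSectionVars false

/-! # Removing conflicts by switching -/

namespace Pool.Agent.R39.Dec

open Finset Classical

lemma exists_equiv_of_fiber_card {P Q R : Type} [Fintype P] [Fintype Q] (s : P → R) (t : Q → R)
    (h' : ∀ r, Nat.card {p // s p = r} = Nat.card {q // t q = r}) :
    ∃ e : P ≃ Q, ∀ p, t (e p) = s p := by
  have h : ∀ r, Fintype.card {p // s p = r} = Fintype.card {q // t q = r} := by
    intro r
    have := h' r
    rwa [Nat.card_eq_fintype_card, Nat.card_eq_fintype_card] at this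
  let e1 : (Σ r, {p // s p = r}) ≃ P := Equiv.sigmaFiberEquiv s
  let e2 : (Σ r, {q // t q = r}) ≃ Q := Equiv.sigmaFiberEquiv t
  let e3 : (Σ r, {p // s p = r}) ≃ (Σ r, {q // t q = r}) :=
    Equiv.sigmaCongrRight (fun r => Fintype.equivOfCardEq (h r))
  refine ⟨(e1.symm.trans e3).trans e2, ?_⟩
  intro p
  have h1 : e1.symm p = ⟨s p, ⟨p, rfl⟩⟩ := by
    rw [Equiv.symm_apply_eq]
    rfl
  show t (e2 (e3 (e1.symm p))) = s p
  rw [h1]
  exact (Fintype.equivOfCardEq (h (s p)) ⟨p, rfl⟩).2

theorem remove_conflicts {P Q I B R : Type} [Fintype P] [Fintype Q] [Fintype I] [Fintype B]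
    (c : P → I) (β : Q → B) (s : P → R) (t : Q → R) (G : P → Prop) (D D' : ℕ)
    (e0 : P ≃ Q) (he0 : ∀ p, t (e0 p) = s p)
    (huniq : ∀ q q', β q = β q' → t q = t q' → q = q')
    (hG : ∀ p p', c p = c p' → G p → G p')
    (hDn : ∀ i, Nat.card {p // c p = i} ≤ D)
    (hDn' : ∀ b, Nat.card {q // β q = b} ≤ D')
    (hmanyn : ∀ p, G p → D + D * D' < Nat.card {p' // G p' ∧ s p' = s p})
    (hno : ∀ p p', ¬ G p → ¬ G p' → c p = c p' → β (e0 p) = β (e0 p') → p = p') :
    ∃ e : P ≃ Q, (∀ p, t (e p) = s p) ∧ ∀ p p', c p = c p' → β (e p) = β (e p') → p = p' := by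
  have hD : ∀ i, (univ.filter (fun p => c p = i)).card ≤ D := by
    intro i
    have := hDn i
    rwa [Nat.card_eq_fintype_card, Fintype.card_subtype] at this
  have hD' : ∀ b, (univ.filter (fun q => β q = b)).card ≤ D' := by
    intro i
    have := hDn' i
    rwa [Nat.card_eq_fintype_card, Fintype.card_subtype] at this
  have hmany : ∀ p, G p → D + D * D' < (univ.filter (fun p' => G p' ∧ s p' = s p)).card := by
    intro p hp
    have := hmanyn p hp
    rwa [Nat.card_eq_fintype_card, Fintype.card_subtype] at this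
  let conf : (P ≃ Q) → Finset (P × P) := fun e =>
    univ.filter (fun r => r.1 ≠ r.2 ∧ c r.1 = c r.2 ∧ β (e r.1) = β (e r.2))
  let adm : Finset (P ≃ Q) := univ.filter (fun e => (∀ p, t (e p) = s p) ∧
    ∀ p, ¬ G p → e p = e0 p)
  have hadm : adm.Nonempty := ⟨e0, by
    rw [mem_filter]
    exact ⟨mem_univ _, he0, fun _ _ => rfl⟩⟩
  obtain ⟨e, he, hmin⟩ := exists_min_image adm (fun e => (conf e).card) hadm
  rw [mem_filter] at he
  obtain ⟨_, he1, he2⟩ := he
  refine ⟨e, he1, ?_⟩
  intro p p' hcp hbp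
  by_contra hne
  -- `p` is movable
  have hGp : G p := by
    by_contra hGp
    have hGp' : ¬ G p' := fun h => hGp (hG p' p hcp.symm h)
    apply hne
    apply hno p p' hGp hGp' hcp
    rw [← he2 p hGp, ← he2 p' hGp']
    exact hbp
  -- bad partners
  let bad1 : Finset P := (univ.filter (fun r => c r = c p)).biUnion
    (fun r => univ.filter (fun p'' => β (e p'') = β (e r) ∧ s p'' = s p))
  let bad2 : Finset P := (univ.filter (fun r => β (e r) = β (e p))).biUnion
    (fun r => univ.filter (fun p'' => c p'' = c r))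
  have hb1 : bad1.card ≤ D := by
    refine (card_biUnion_le_card_mul _ _ 1 ?_).trans ?_
    · intro r _
      rw [card_le_one]
      intro x hx y hy
      rw [mem_filter] at hx hy
      apply e.injective
      apply huniq
      · rw [hx.2.1, hy.2.1]
      · rw [he1, he1, hx.2.2, hy.2.2]
    · rw [mul_one]
      exact hD _
  have hb2 : bad2.card ≤ D * D' := by
    refine (card_biUnion_le_card_mul _ _ D ?_).trans ?_
    · intro r _
      exact hD _
    · rw [mul_comm]
      apply Nat.mul_le_mul_left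
      refine le_trans ?_ (hD' (β (e p)))
      apply card_le_card_of_injOn e
      · intro r hr
        rw [mem_coe, mem_filter] at hr ⊢
        exact ⟨mem_univ _, hr.2⟩
      · exact e.injective.injOn
  obtain ⟨p2, hp2, hp2b⟩ : ∃ p2 ∈ univ.filter (fun p' => G p' ∧ s p' = s p),
      p2 ∉ bad1 ∪ bad2 := by
    by_contra hcon
    push Not at hcon
    have h1 := card_le_card (show univ.filter (fun p' => G p' ∧ s p' = s p) ⊆ bad1 ∪ bad2 from hcon)
    have h2 := card_union_le bad1 bad2
    have h3 := hmany p hGp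
    omega
  rw [mem_filter] at hp2
  obtain ⟨_, hGp2, hsp2⟩ := hp2
  rw [mem_union, not_or] at hp2b
  obtain ⟨hnb1, hnb2⟩ := hp2b
  have hi : ∀ r, c r = c p → β (e r) ≠ β (e p2) := by
    intro r hr hb
    apply hnb1
    rw [mem_biUnion]
    refine ⟨r, ?_, ?_⟩
    · rw [mem_filter]
      exact ⟨mem_univ _, hr⟩
    · rw [mem_filter]
      exact ⟨mem_univ _, hb.symm, hsp2⟩
  have hii : ∀ r, c r = c p2 → β (e r) ≠ β (e p) := by
    intro r hr hb
    apply hnb2
    rw [mem_biUnion]
    refine ⟨r, ?_, ?_⟩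
    · rw [mem_filter]
      exact ⟨mem_univ _, hb⟩
    · rw [mem_filter]
      exact ⟨mem_univ _, hr.symm⟩
  have hcc : c p2 ≠ c p := fun h => hii p h.symm rfl
  have hpp : p2 ≠ p := fun h => hcc (by rw [h])
  let e' : P ≃ Q := (Equiv.swap p p2).trans e
  have e'p : e' p = e p2 := by
    show e (Equiv.swap p p2 p) = e p2
    rw [Equiv.swap_apply_left]
  have e'p2 : e' p2 = e p := by
    show e (Equiv.swap p p2 p2) = e p
    rw [Equiv.swap_apply_right]
  have e'o : ∀ r, r ≠ p → r ≠ p2 → e' r = e r := by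
    intro r h1 h2
    show e (Equiv.swap p p2 r) = e r
    rw [Equiv.swap_apply_of_ne_of_ne h1 h2]
  have hadm' : e' ∈ adm := by
    rw [mem_filter]
    refine ⟨mem_univ _, ?_, ?_⟩
    · intro r
      by_cases h1 : r = p
      · rw [h1, e'p, he1, hsp2]
      · by_cases h2 : r = p2
        · rw [h2, e'p2, he1, hsp2]
        · rw [e'o r h1 h2, he1]
    · intro r hr
      rw [e'o r (fun h => hr (by rw [h]; exact hGp)) (fun h => hr (by rw [h]; exact hGp2)),
        he2 r hr]
  have hsub : conf e' ⊂ conf e := by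
    rw [ssubset_iff_of_subset]
    · refine ⟨(p, p'), ?_, ?_⟩
      · rw [mem_filter]
        exact ⟨mem_univ _, hne, hcp, hbp⟩
      · rw [mem_filter]
        rintro ⟨_, h1, h2, h3⟩
        simp only at h1 h2 h3
        have hp'2 : p' ≠ p2 := fun h => hcc (by rw [← h, hcp])
        rw [e'p, e'o p' (fun h => hne h.symm) hp'2] at h3
        exact hi p' hcp.symm h3.symm
    · rintro ⟨r, r'⟩ hr
      rw [mem_filter] at hr ⊢
      obtain ⟨_, h1, h2, h3⟩ := hr
      simp only at h1 h2 h3 ⊢
      refine ⟨mem_univ _, h1, h2, ?_⟩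
      -- none of `r, r'` is `p` or `p2`
      have key : ∀ x y, x ≠ y → c x = c y → β (e' x) = β (e' y) → x ≠ p ∧ x ≠ p2 := by
        intro x y hxy hcxy hbxy
        constructor
        · intro hx
          rw [hx] at hxy hcxy hbxy
          have hy2 : y ≠ p2 := fun h => hcc (by rw [← h, ← hcxy])
          rw [e'p, e'o y (fun h => hxy h.symm) hy2] at hbxy
          exact hi y hcxy.symm hbxy.symm
        · intro hx
          rw [hx] at hxy hcxy hbxy
          have hy1 : y ≠ p := fun h => hcc (by rw [hcxy, h])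
          rw [e'p2, e'o y hy1 (fun h => hxy h.symm)] at hbxy
          exact hii y hcxy.symm hbxy.symm
      have k1 := key r r' h1 h2 h3
      have k2 := key r' r h1.symm h2.symm h3.symm
      rw [e'o r k1.1 k1.2, e'o r' k2.1 k2.2] at h3
      exact h3
  have h1 := hmin e' hadm'
  have h2 := card_lt_card hsub
  omega

end Pool.Agent.R39.Dec
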