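import Mathlib
import Pool.Agent.R39.Dec.Defs

set_option autoImplicit false
set_option linter.unusedSectionVars false

/-! # Degrees in balanced trees -/

namespace Pool.Agent.R39.Dec

open Finset Classical

variable {n : ℕ} {V : Type} [Fintype V] {T : SimpleGraph V} {X : Set V}

/-- the neighbours in `X` of a vertex outside `X` -/
noncomputable def nb (T : SimpleGraph V) (X : Set V) (y : {v : V // v ∉ X}) :
    Finset {v : V // v ∈ X} := univ.filter (fun x => T.Adj x.1 y.1)

lemma card_left (hX1 : X.ncard = n) : Fintype.card {v : V // v ∈ X} = n := by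
  rw [← hX1, ← Nat.card_coe_set_eq, Nat.card_eq_fintype_card]

lemma card_right (hX2 : (Xᶜ).ncard = n) : Fintype.card {v : V // v ∉ X} = n := by
  rw [← hX2, ← Nat.card_coe_set_eq, Nat.card_eq_fintype_card]
  exact Fintype.card_congr (Equiv.refl _)

lemma card_V (hX1 : X.ncard = n) (hX2 : (Xᶜ).ncard = n) : Fintype.card V = 2 * n := by
  have h2 := Fintype.card_subtype_compl (fun v : V => v ∈ X)
  have h3 := Fintype.card_subtype_le (fun v : V => v ∈ X)
  rw [card_left hX1] at h2 h3
  have h4 : Fintype.card {v : V // ¬ v ∈ X} = n := card_right hX2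
  omega

lemma card_edges (hTree : T.IsTree) (hX1 : X.ncard = n) (hX2 : (Xᶜ).ncard = n)
    (hX : ∀ a b, T.Adj a b → (a ∈ X ↔ b ∉ X)) :
    Fintype.card {p : {v : V // v ∈ X} × {v : V // v ∉ X} // T.Adj p.1.1 p.2.1} = 2 * n - 1 := by
  have h1 := hTree.card_edgeFinset
  have hV := card_V hX1 hX2
  have h5 : Fintype.card {p : {v : V // v ∈ X} × {v : V // v ∉ X} // T.Adj p.1.1 p.2.1} =
      T.edgeFinset.card := by
    rw [← Fintype.card_coe]
    apply Fintype.card_of_bijective
      (f := fun p => (⟨s(p.1.1.1, p.1.2.1), by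
        rw [SimpleGraph.mem_edgeFinset, SimpleGraph.mem_edgeSet]; exact p.2⟩ :
          {e : Sym2 V // e ∈ T.edgeFinset}))
    constructor
    · rintro ⟨⟨x, y⟩, h⟩ ⟨⟨x', y'⟩, h'⟩ he
      have he' := congrArg Subtype.val he
      simp only [Sym2.eq_iff] at he'
      rcases he' with ⟨h6, h7⟩ | ⟨h6, h7⟩
      · have e1 : x = x' := Subtype.ext h6
        have e2 : y = y' := Subtype.ext h7
        subst e1; subst e2; rfl
      · exact absurd (h6 ▸ x.2) y'.2
    · rintro ⟨e, he⟩
      induction e using Sym2.ind with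
      | _ a b =>
        rw [SimpleGraph.mem_edgeFinset, SimpleGraph.mem_edgeSet] at he
        by_cases ha : a ∈ X
        · refine ⟨⟨(⟨a, ha⟩, ⟨b, (hX a b he).1 ha⟩), he⟩, ?_⟩
          rfl
        · have hb : b ∈ X := by
            by_contra hb
            exact ha ((hX a b he).2 hb)
          refine ⟨⟨(⟨b, hb⟩, ⟨a, ha⟩), he.symm⟩, ?_⟩
          apply Subtype.ext
          exact Sym2.eq_swap
  rw [h5]
  omega

lemma sum_nb (hTree : T.IsTree) (hX1 : X.ncard = n) (hX2 : (Xᶜ).ncard = n)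
    (hX : ∀ a b, T.Adj a b → (a ∈ X ↔ b ∉ X)) :
    ∑ y : {v : V // v ∉ X}, (nb T X y).card = 2 * n - 1 := by
  rw [← card_edges hTree hX1 hX2 hX, Fintype.card_subtype, card_filter, Fintype.sum_prod_type,
    sum_comm]
  apply sum_congr rfl
  intro y _
  unfold nb
  rw [card_filter]

lemma sum_nb' (hTree : T.IsTree) (hX1 : X.ncard = n) (hX2 : (Xᶜ).ncard = n)
    (hX : ∀ a b, T.Adj a b → (a ∈ X ↔ b ∉ X)) :
    ∑ x : {v : V // v ∈ X}, (univ.filter (fun y : {v : V // v ∉ X} => T.Adj x.1 y.1)).card =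
      2 * n - 1 := by
  rw [← card_edges hTree hX1 hX2 hX, Fintype.card_subtype, card_filter, Fintype.sum_prod_type]
  apply sum_congr rfl
  intro y _
  rw [card_filter]

lemma exists_nb (hn : 1 ≤ n) (hTree : T.IsTree) (hX1 : X.ncard = n) (hX2 : (Xᶜ).ncard = n)
    (v : V) : ∃ w, T.Adj v w := by
  have : Nontrivial V := by
    rw [← Fintype.one_lt_card_iff_nontrivial, card_V hX1 hX2]
    omega
  exact hTree.connected.preconnected.exists_adj_of_nontrivial v

lemma nb_pos (hn : 1 ≤ n) (hTree : T.IsTree) (hX1 : X.ncard = n) (hX2 : (Xᶜ).ncard = n)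
    (hX : ∀ a b, T.Adj a b → (a ∈ X ↔ b ∉ X)) (y : {v : V // v ∉ X}) : 1 ≤ (nb T X y).card := by
  obtain ⟨w, hw⟩ := exists_nb hn hTree hX1 hX2 y.1
  have hwX : w ∈ X := by
    by_contra h
    exact y.2 ((hX y.1 w hw).2 h)
  apply card_pos.2
  refine ⟨⟨w, hwX⟩, ?_⟩
  unfold nb
  rw [mem_filter]
  exact ⟨mem_univ _, hw.symm⟩

lemma leaves (hn : 2 ≤ n) (hTree : T.IsTree) (hX1 : X.ncard = n) (hX2 : (Xᶜ).ncard = n)
    (hX : ∀ a b, T.Adj a b → (a ∈ X ↔ b ∉ X)) :
    ∃ (x0 : {v : V // v ∈ X}) (y1 y0 : {v : V // v ∉ X}), y1 ≠ y0 ∧ (nb T X y0).card = 1 ∧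
      x0 ∈ nb T X y1 ∧ ∀ y, y ≠ y1 → x0 ∉ nb T X y := by
  -- a leaf in `X`
  obtain ⟨x0, hx0⟩ : ∃ x0 : {v : V // v ∈ X},
      (univ.filter (fun y : {v : V // v ∉ X} => T.Adj x0.1 y.1)).card ≤ 1 := by
    by_contra hno
    push Not at hno
    have h1 := sum_nb' hTree hX1 hX2 hX
    have h2 : ∑ x : {v : V // v ∈ X}, 2 ≤
        ∑ x : {v : V // v ∈ X}, (univ.filter (fun y : {v : V // v ∉ X} => T.Adj x.1 y.1)).card :=
      sum_le_sum (fun x _ => hno x)
    rw [sum_const, card_univ, card_left hX1, h1, smul_eq_mul] at h2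
    omega
  obtain ⟨y0, hy0⟩ : ∃ y0 : {v : V // v ∉ X}, (nb T X y0).card ≤ 1 := by
    by_contra hno
    push Not at hno
    have h1 := sum_nb hTree hX1 hX2 hX
    have h2 : ∑ x : {v : V // v ∉ X}, 2 ≤ ∑ y : {v : V // v ∉ X}, (nb T X y).card :=
      sum_le_sum (fun x _ => hno x)
    rw [sum_const, card_univ, card_right hX2, h1, smul_eq_mul] at h2
    omega
  have hy0' := nb_pos (by omega) hTree hX1 hX2 hX y0
  obtain ⟨w, hw⟩ := exists_nb (by omega) hTree hX1 hX2 x0.1
  have hwX : w ∉ X := (hX x0.1 w hw).1 x0.2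
  have huniq : ∀ y : {v : V // v ∉ X}, T.Adj x0.1 y.1 → y = ⟨w, hwX⟩ := by
    intro y hy
    apply card_le_one.1 hx0
    · rw [mem_filter]
      exact ⟨mem_univ _, hy⟩
    · rw [mem_filter]
      exact ⟨mem_univ _, hw⟩
  refine ⟨x0, ⟨w, hwX⟩, y0, ?_, by omega, ?_, ?_⟩
  · rintro rfl
    -- the component `{x0, w}` would be everything
    have hx0nb : x0 ∈ nb T X ⟨w, hwX⟩ := by
      unfold nb
      rw [mem_filter]
      exact ⟨mem_univ _, hw⟩
    have hw1 : ∀ x : {v : V // v ∈ X}, T.Adj x.1 w → x = x0 := by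
      intro x hx
      apply card_le_one.1 hy0
      · unfold nb
        rw [mem_filter]
        exact ⟨mem_univ _, hx⟩
      · exact hx0nb
    have hall : ∀ v, v = x0.1 ∨ v = w := by
      intro v
      have hr := hTree.connected.preconnected x0.1 v
      rw [SimpleGraph.reachable_iff_reflTransGen] at hr
      induction hr with
      | refl => exact Or.inl rfl
      | @tail b c _ hbc ih =>
        rcases ih with h | h
        · right
          rw [h] at hbc
          exact congrArg Subtype.val (huniq ⟨_, (hX _ _ hbc).1 x0.2⟩ hbc)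
        · left
          rw [h] at hbc
          have hc : c ∈ X := by
            by_contra hc
            exact hwX ((hX _ _ hbc).2 hc)
          exact congrArg Subtype.val (hw1 ⟨_, hc⟩ hbc.symm)
    have hcard : Fintype.card V ≤ 2 := by
      rw [← card_univ]
      have : (univ : Finset V) ⊆ {x0.1, w} := by
        intro v _
        rw [mem_insert, mem_singleton]
        exact hall v
      exact (card_le_card this).trans card_le_two
    rw [card_V hX1 hX2] at hcard
    omega
  · unfold nb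
    rw [mem_filter]
    exact ⟨mem_univ _, hw⟩
  · intro y hy h
    unfold nb at h
    rw [mem_filter] at h
    exact hy (huniq y h.2)

end Pool.Agent.R39.Dec
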