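import Mathlib
import Pool.Agent.R39.Dec.Group
import Pool.Agent.R39.Dec.TreeFacts
import Pool.Agent.R39.Dec.Conflict

set_option autoImplicit false
set_option linter.unusedSectionVars false

/-! # Packings of families of balanced trees -/

namespace Pool.Agent.R39.Dec

open Finset Classical

/-- the family `T i` packs into `H` -/
def PacksInto {ι W : Type} {V : ι → Type} (T : ∀ i, SimpleGraph (V i)) (H : SimpleGraph W) :
    Prop :=
  ∃ f : ∀ i, V i → W, (∀ i, Function.Injective (f i)) ∧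
    (∀ i a b, (T i).Adj a b → H.Adj (f i a) (f i b)) ∧
    ∀ i j, i ≠ j → ∀ a b c d, (T i).Adj a b → (T j).Adj c d →
      s(f i a, f i b) ≠ s(f j c, f j d)

/-- `P n k`: every family of `k` trees with classes of size `n` packs into `K_{2n-1,k}` -/
def P (n k : ℕ) : Prop :=
  ∀ (V : Fin k → Type) [∀ i, Fintype (V i)] (T : ∀ i, SimpleGraph (V i)),
    (∀ i, IsBalancedTree n (T i)) →
      PacksInto T (completeBipartiteGraph (Fin (2 * n - 1)) (Fin k))

/-- auxiliary form: a family indexed by `I`, right side of the host is `I` -/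
def Pk (n : ℕ) {I : Type} (τ : I → SimpleGraph (Fin (2 * n))) : Prop :=
  ∃ f : I → Fin (2 * n) → Fin (2 * n - 1) ⊕ I, (∀ i, Function.Injective (f i)) ∧
    (∀ i a b, (τ i).Adj a b →
      (completeBipartiteGraph (Fin (2 * n - 1)) I).Adj (f i a) (f i b)) ∧
    ∀ i j a b c d, (τ i).Adj a b → (τ j).Adj c d → f i a = f j c → f i b = f j d → i = j

lemma Pk_equiv {n : ℕ} {I J : Type} {τ : I → SimpleGraph (Fin (2 * n))} (e : J ≃ I)
    (h : Pk n τ) : Pk n (fun j => τ (e j)) := by
  obtain ⟨f, h1, h2, h3⟩ := h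
  have hinj : Function.Injective
      (Sum.map id e.symm : Fin (2 * n - 1) ⊕ I → Fin (2 * n - 1) ⊕ J) :=
    Sum.map_injective.2 ⟨Function.injective_id, e.symm.injective⟩
  refine ⟨fun j v => Sum.map id e.symm (f (e j) v), ?_, ?_, ?_⟩
  · intro j v w hvw
    exact h1 (e j) (hinj hvw)
  · intro j a b hab
    have h := h2 (e j) a b hab
    rcases h4 : f (e j) a with u | u <;> rcases h5 : f (e j) b with w | w <;>
      rw [h4, h5] at h <;> simp [h4, h5] at h ⊢
  · intro i j a b c d hab hcd hac hbd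
    exact e.injective (h3 (e i) (e j) a b c d hab hcd (hinj hac) (hinj hbd))

lemma Pk_sum {n : ℕ} {I J : Type} {τ : I → SimpleGraph (Fin (2 * n))}
    {τ' : J → SimpleGraph (Fin (2 * n))} (h : Pk n τ) (h' : Pk n τ') :
    Pk n (Sum.elim τ τ') := by
  obtain ⟨f, h1, h2, h3⟩ := h
  obtain ⟨f', h1', h2', h3'⟩ := h'
  have hinj : Function.Injective
      (Sum.map id Sum.inl : Fin (2 * n - 1) ⊕ I → Fin (2 * n - 1) ⊕ (I ⊕ J)) :=
    Sum.map_injective.2 ⟨Function.injective_id, Sum.inl_injective⟩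
  have hinj' : Function.Injective
      (Sum.map id Sum.inr : Fin (2 * n - 1) ⊕ J → Fin (2 * n - 1) ⊕ (I ⊕ J)) :=
    Sum.map_injective.2 ⟨Function.injective_id, Sum.inr_injective⟩
  -- a vertex on the right side belongs to one of the two parts
  have hcross : ∀ (i : I) (j : J) a b c d, (τ i).Adj a b → (τ' j).Adj c d →
      (Sum.map id Sum.inl : Fin (2 * n - 1) ⊕ I → Fin (2 * n - 1) ⊕ (I ⊕ J)) (f i a) =
        (Sum.map id Sum.inr : Fin (2 * n - 1) ⊕ J → Fin (2 * n - 1) ⊕ (I ⊕ J)) (f' j c) →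
      (Sum.map id Sum.inl : Fin (2 * n - 1) ⊕ I → Fin (2 * n - 1) ⊕ (I ⊕ J)) (f i b) =
        (Sum.map id Sum.inr : Fin (2 * n - 1) ⊕ J → Fin (2 * n - 1) ⊕ (I ⊕ J)) (f' j d) →
      False := by
    intro i j a b c d hab hcd hac hbd
    have h := h2 i a b hab
    rcases h4 : f i a with u | u <;> rcases h5 : f i b with w | w <;> rw [h4, h5] at h
    · exact absurd h (by simp)
    · rw [h5] at hbd
      rcases h6 : f' j d with x | x <;> rw [h6] at hbd <;> simp at hbd
    · rw [h4] at hac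
      rcases h6 : f' j c with x | x <;> rw [h6] at hac <;> simp at hac
    · exact absurd h (by simp)
  refine ⟨fun k v => match k with
    | Sum.inl i => Sum.map id Sum.inl (f i v)
    | Sum.inr j => Sum.map id Sum.inr (f' j v), ?_, ?_, ?_⟩
  · rintro (i | j) v w hvw
    · exact h1 i (hinj hvw)
    · exact h1' j (hinj' hvw)
  · rintro (i | j) a b hab
    · have h := h2 i a b hab
      rcases h4 : f i a with u | u <;> rcases h5 : f i b with w | w <;>
        rw [h4, h5] at h <;> simp [h4, h5] at h ⊢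
    · have h := h2' j a b hab
      rcases h4 : f' j a with u | u <;> rcases h5 : f' j b with w | w <;>
        rw [h4, h5] at h <;> simp [h4, h5] at h ⊢
  · rintro (i | i) (j | j) a b c d hab hcd hac hbd
    · rw [h3 i j a b c d hab hcd (hinj hac) (hinj hbd)]
    · exact (hcross i j a b c d hab hcd hac hbd).elim
    · exact (hcross j i c d a b hcd hab hac.symm hbd.symm).elim
    · rw [h3' i j a b c d hab hcd (hinj' hac) (hinj' hbd)]

lemma Pk_of_counts {n : ℕ} {I J : Type} [Fintype I] [Fintype J]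
    {τ : I → SimpleGraph (Fin (2 * n))} {τ' : J → SimpleGraph (Fin (2 * n))} (h : Pk n τ)
    (hc : ∀ t, Fintype.card {j // τ' j = t} = Fintype.card {i // τ i = t}) : Pk n τ' := by
  obtain ⟨e, he⟩ := exists_equiv_of_fiber_card τ' τ (fun t => by
    rw [Nat.card_eq_fintype_card, Nat.card_eq_fintype_card]
    exact hc t)
  have h1 := Pk_equiv e h
  have h2 : (fun j => τ (e j)) = τ' := funext he
  rwa [h2] at h1

/-- copies of one tree -/
lemma Pk_group {n : ℕ} (hn : 1 ≤ n) {T : SimpleGraph (Fin (2 * n))} (hT : IsBalancedTree n T)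
    (M : Type) [Fintype M] :
    Pk n (fun _ : Equiv.Perm (Fin (2 * n - 1)) × M => T) := by
  obtain ⟨f, hf1, hf2, hf3⟩ := balanced_dec hn hT (A := Fin (2 * n - 1)) (by simp) M
  refine ⟨f, hf1, hf2, ?_⟩
  intro i j a b c d hab hcd hac hbd
  obtain ⟨u, _, hu⟩ := hf3 (f i a) (f i b) (hf2 i a b hab)
  rw [hu i ⟨a, b, hab, rfl, rfl⟩, hu j ⟨c, d, hcd, hac.symm, hbd.symm⟩]

/-- the good multiplicity functions -/
def Good (n : ℕ) (μ : SimpleGraph (Fin (2 * n)) → ℕ) : Prop :=
  ∀ (I : Type) [Fintype I] (τ : I → SimpleGraph (Fin (2 * n))),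
    (∀ t, Fintype.card {i // τ i = t} = μ t) → Pk n τ

lemma Good_of {n : ℕ} {μ : SimpleGraph (Fin (2 * n)) → ℕ} {I : Type} [Fintype I]
    {τ : I → SimpleGraph (Fin (2 * n))} (h : Pk n τ)
    (hc : ∀ t, Fintype.card {i // τ i = t} = μ t) : Good n μ := by
  intro J _ τ' hτ'
  exact Pk_of_counts h (fun t => by rw [hτ', hc])

lemma Good_zero (n : ℕ) : Good n 0 := by
  intro I _ τ hτ
  have hI : IsEmpty I := by
    constructor
    intro i
    have h1 := hτ (τ i)
    have h2 : 0 < Fintype.card {j // τ j = τ i} := Fintype.card_pos_iff.2 ⟨⟨i, rfl⟩⟩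
    rw [h1] at h2
    exact absurd h2 (lt_irrefl 0)
  exact ⟨fun i => hI.elim i, fun i => hI.elim i, fun i => hI.elim i, fun i => hI.elim i⟩

/-- a concrete family with given multiplicities -/
lemma exists_family {n : ℕ} (μ : SimpleGraph (Fin (2 * n)) → ℕ) :
    ∃ (I : Type) (_ : Fintype I) (τ : I → SimpleGraph (Fin (2 * n))),
      ∀ t, Fintype.card {i // τ i = t} = μ t := by
  refine ⟨Σ t, Fin (μ t), inferInstance, Sigma.fst, ?_⟩
  intro t
  rw [← Fintype.card_fin (μ t)]
  apply Fintype.card_congr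
  exact
    { toFun := fun p => cast (congrArg (fun s => Fin (μ s)) p.2) p.1.2
      invFun := fun j => ⟨⟨t, j⟩, rfl⟩
      left_inv := by
        rintro ⟨⟨s, j⟩, hs⟩
        subst hs
        rfl
      right_inv := fun j => rfl }

lemma Good_add {n : ℕ} {μ ν : SimpleGraph (Fin (2 * n)) → ℕ} (h : Good n μ) (h' : Good n ν) :
    Good n (μ + ν) := by
  obtain ⟨I, _, τ, hτ⟩ := exists_family μ
  obtain ⟨J, _, τ', hτ'⟩ := exists_family ν
  apply Good_of (Pk_sum (h I τ hτ) (h' J τ' hτ'))
  intro t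
  rw [Pi.add_apply, ← hτ t, ← hτ' t, ← Fintype.card_sum]
  apply Fintype.card_congr
  exact
    { toFun := fun p => match p with
        | ⟨Sum.inl i, h⟩ => Sum.inl ⟨i, h⟩
        | ⟨Sum.inr j, h⟩ => Sum.inr ⟨j, h⟩
      invFun := fun q => match q with
        | Sum.inl p => ⟨Sum.inl p.1, p.2⟩
        | Sum.inr p => ⟨Sum.inr p.1, p.2⟩
      left_inv := by rintro ⟨i | j, h⟩ <;> rfl
      right_inv := by rintro (p | p) <;> rfl }

/-- the good multiplicity functions as a submonoid -/
def goodMonoid (n : ℕ) : AddSubmonoid (SimpleGraph (Fin (2 * n)) → ℕ) where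
  carrier := {μ | Good n μ}
  zero_mem' := Good_zero n
  add_mem' := fun h h' => Good_add h h'

lemma Good_group {n : ℕ} (hn : 1 ≤ n) {T : SimpleGraph (Fin (2 * n))} (hT : IsBalancedTree n T) :
    Pi.single T (2 * n - 1).factorial ∈ goodMonoid n := by
  apply Good_of (Pk_group hn hT Unit)
  intro t
  by_cases h : T = t
  · subst h
    rw [Pi.single_eq_same]
    have : Fintype.card {i : Equiv.Perm (Fin (2 * n - 1)) × Unit // T = T} =
        Fintype.card (Equiv.Perm (Fin (2 * n - 1))) := by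
      apply Fintype.card_congr
      exact
        { toFun := fun p => p.1.1
          invFun := fun p => ⟨(p, ()), rfl⟩
          left_inv := fun p => rfl
          right_inv := fun p => rfl }
    rw [this, Fintype.card_perm, Fintype.card_fin]
  · rw [Pi.single_eq_of_ne (fun h' => h h'.symm), Fintype.card_eq_zero_iff]
    exact ⟨fun p => h p.2⟩

end Pool.Agent.R39.Dec
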