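import Mathlib

set_option autoImplicit false
set_option linter.unusedSectionVars false

/-! # Subset sums and disjoint families -/

namespace Pool.Agent.R39.Dec

open Finset Classical

/-- if the sum of `d` over `s` is less than `2|s|`, all values up to the sum are subset sums -/
lemma subset_sum {Y : Type} (d : Y → ℕ) (s : Finset Y) (hd : ∀ y ∈ s, 1 ≤ d y)
    (hs : ∑ y ∈ s, d y + 1 ≤ 2 * s.card) (e : ℕ) (he : e ≤ ∑ y ∈ s, d y) :
    ∃ E ⊆ s, ∑ y ∈ E, d y = e := by
  induction s using Finset.strongInduction generalizing e with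
  | H s ih =>
    by_cases h1 : ∀ y ∈ s, d y = 1
    · have h2 : ∀ E ⊆ s, ∑ y ∈ E, d y = E.card := by
        intro E hE
        rw [sum_congr rfl (fun y hy => h1 y (hE hy))]
        simp
      rw [h2 s (Subset.refl s)] at he
      obtain ⟨E, hE, hE2⟩ := exists_subset_card_eq he
      exact ⟨E, hE, by rw [h2 E hE, hE2]⟩
    · push Not at h1
      obtain ⟨x, hx, hx1⟩ := h1
      have hx2 : 2 ≤ d x := by
        have := hd x hx
        omega
      have hsum := add_sum_erase s d hx
      have hcard := card_erase_of_mem hx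
      have hpos : 0 < s.card := card_pos.2 ⟨x, hx⟩
      have hlow : (s.erase x).card ≤ ∑ y ∈ s.erase x, d y := by
        rw [card_eq_sum_ones]
        exact sum_le_sum (fun y hy => hd y (mem_of_mem_erase hy))
      have ih' := ih (s.erase x) (erase_ssubset hx) (fun y hy => hd y (mem_of_mem_erase hy))
        (by omega)
      by_cases he2 : e ≤ ∑ y ∈ s.erase x, d y
      · obtain ⟨E, hE, hE2⟩ := ih' e he2
        exact ⟨E, hE.trans (erase_subset _ _), hE2⟩
      · obtain ⟨E, hE, hE2⟩ := ih' (e - d x) (by omega)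
        refine ⟨insert x E, ?_, ?_⟩
        · intro y hy
          rcases mem_insert.1 hy with rfl | hy
          · exact hx
          · exact mem_of_mem_erase (hE hy)
        · rw [sum_insert (fun h => (mem_erase.1 (hE h)).1 rfl), hE2]
          omega

/-- a family of disjoint sets with prescribed sizes -/
lemma disjoint_family {A J : Type} (d : J → ℕ) (s : Finset J) (U : Finset A)
    (h : ∑ j ∈ s, d j ≤ U.card) : ∃ V : J → Finset A, (∀ j ∈ s, V j ⊆ U ∧ (V j).card = d j) ∧
      ∀ j ∈ s, ∀ j' ∈ s, j ≠ j' → Disjoint (V j) (V j') := by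
  induction s using Finset.induction_on generalizing U with
  | empty => exact ⟨fun _ => ∅, by simp, by simp⟩
  | insert x s hx ih =>
    rw [sum_insert hx] at h
    obtain ⟨W, hW, hWc⟩ := exists_subset_card_eq (show d x ≤ U.card by omega)
    have hc := card_sdiff_of_subset hW
    obtain ⟨V, hV1, hV2⟩ := ih (U \ W) (by omega)
    refine ⟨fun j => if j = x then W else V j, ?_, ?_⟩
    · intro j hj
      rcases mem_insert.1 hj with rfl | hj
      · simp only [if_true]
        exact ⟨hW, hWc⟩
      · have hjx : j ≠ x := fun h => hx (h ▸ hj)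
        simp only [if_neg hjx]
        exact ⟨(hV1 j hj).1.trans sdiff_subset, (hV1 j hj).2⟩
    · intro j hj j' hj' hne
      rcases mem_insert.1 hj with hjx | hjs
      · rcases mem_insert.1 hj' with hjx' | hjs'
        · exact absurd (hjx.trans hjx'.symm) hne
        · have hjx' : j' ≠ x := fun h => hne (hjx.trans h.symm)
          simp only [if_pos hjx, if_neg hjx']
          exact (disjoint_of_subset_left (hV1 j' hjs').1 sdiff_disjoint).symm
      · have hjx : j ≠ x := fun h => hx (h ▸ hjs)
        rcases mem_insert.1 hj' with hjx' | hjs'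
        · simp only [if_pos hjx', if_neg hjx]
          exact disjoint_of_subset_left (hV1 j hjs).1 sdiff_disjoint
        · have hjx' : j' ≠ x := fun h => hx (h ▸ hjs')
          simp only [if_neg hjx, if_neg hjx']
          exact hV2 j hjs j' hjs' hne

/-- the special bins -/
theorem special {A Y Z : Type} [Fintype A] [Fintype Y] [Fintype Z] (d : Y → ℕ)
    (hd : ∀ y, 1 ≤ d y) (hsum : ∑ y, d y = Fintype.card A) (hY : Fintype.card A + 1 ≤
      2 * Fintype.card Y) (ST : Z → Finset A) (hST : ∑ z, (ST z).card = Fintype.card A) (zs : Z) :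
    ∃ (E : Z → Finset Y) (V : Z → Y → Finset A),
      (∀ z, z ≠ zs → ∀ y, (V z y).card = d y) ∧
      (∀ z, z ≠ zs → ∀ y, y ∉ E z → Disjoint (V z y) (ST z)) ∧
      (∀ z, z ≠ zs → ∀ y y', y ∉ E z → y' ∉ E z → y ≠ y' → Disjoint (V z y) (V z y')) ∧
      (∀ z, z ≠ zs → ∀ y, y ∈ E z → Disjoint (V z y) (ST zs)) ∧
      (∀ z z', z ≠ zs → z' ≠ zs → ∀ y y', y ∈ E z → y' ∈ E z' → (z, y) ≠ (z', y') →
        Disjoint (V z y) (V z' y')) := by
  have hE : ∀ z, ∃ E : Finset Y, ∑ y ∈ E, d y = (ST z).card := by
    intro z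
    obtain ⟨E, _, hE⟩ := subset_sum d univ (fun y _ => hd y) (by rw [hsum, card_univ]; exact hY)
      (ST z).card (by rw [hsum]; exact card_le_univ _)
    exact ⟨E, hE⟩
  choose E hE using hE
  have hV1 : ∀ z, ∃ V : Y → Finset A, (∀ y ∈ (E z)ᶜ, V y ⊆ (ST z)ᶜ ∧ (V y).card = d y) ∧
      ∀ y ∈ (E z)ᶜ, ∀ y' ∈ (E z)ᶜ, y ≠ y' → Disjoint (V y) (V y') := by
    intro z
    apply disjoint_family
    have h1 := sum_add_sum_compl (E z) d
    rw [card_compl]
    rw [hE z, hsum] at h1
    omega
  choose V1 hV1a hV1b using hV1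
  obtain ⟨V2, hV2a, hV2b⟩ := disjoint_family (J := Z × Y) (fun p => d p.2)
    (univ.filter (fun p : Z × Y => p.1 ≠ zs ∧ p.2 ∈ E p.1)) (ST zs)ᶜ (by
      have h1 : ∑ p ∈ univ.filter (fun p : Z × Y => p.1 ≠ zs ∧ p.2 ∈ E p.1), d p.2 =
          ∑ z ∈ univ.erase zs, (ST z).card := by
        rw [sum_filter, Fintype.sum_prod_type, ← sum_erase univ (a := zs)]
        · apply sum_congr rfl
          intro z hz
          rw [mem_erase] at hz
          rw [← hE z, ← sum_filter]
          apply sum_congr
          · ext y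
            simp [hz.1]
          · intros
            rfl
        · simp
      rw [h1, card_compl]
      have h2 := add_sum_erase univ (fun z => (ST z).card) (mem_univ zs)
      rw [hST] at h2
      omega)
  refine ⟨E, fun z y => if y ∈ E z then V2 (z, y) else V1 z y, ?_, ?_, ?_, ?_, ?_⟩
  · intro z hz y
    by_cases hy : y ∈ E z
    · simp only [if_pos hy]
      exact (hV2a (z, y) (by rw [mem_filter]; exact ⟨mem_univ _, hz, hy⟩)).2
    · simp only [if_neg hy]
      exact (hV1a z y (mem_compl.2 hy)).2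
  · intro z hz y hy
    simp only [if_neg hy]
    exact disjoint_of_subset_left (hV1a z y (mem_compl.2 hy)).1 (disjoint_compl_left)
  · intro z hz y y' hy hy' hne
    simp only [if_neg hy, if_neg hy']
    exact hV1b z y (mem_compl.2 hy) y' (mem_compl.2 hy') hne
  · intro z hz y hy
    simp only [if_pos hy]
    exact disjoint_of_subset_left
      (hV2a (z, y) (by rw [mem_filter]; exact ⟨mem_univ _, hz, hy⟩)).1 (disjoint_compl_left)
  · intro z z' hz hz' y y' hy hy' hne
    simp only [if_pos hy, if_pos hy']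
    exact hV2b (z, y) (by rw [mem_filter]; exact ⟨mem_univ _, hz, hy⟩) (z', y')
      (by rw [mem_filter]; exact ⟨mem_univ _, hz', hy'⟩) hne

end Pool.Agent.R39.Dec
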