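import Mathlib
import Pool.Agent.R39.Dec.Pk
import Pool.Agent.R39.Dec.Mult
import Pool.Agent.R39.Dec.Special

set_option autoImplicit false
set_option linter.unusedSectionVars false

/-! # One tree together with many copies of another tree -/

namespace Pool.Agent.R39.Dec

open Finset Classical

theorem pack_of_slots {n : ℕ} {I A B P Q : Type} (τ : I → SimpleGraph (Fin (2 * n)))
    (X : I → Set (Fin (2 * n))) (hX : ∀ i a b, (τ i).Adj a b → (a ∈ X i ↔ b ∉ X i))
    (φ : ∀ i, {v // v ∈ X i} → A) (hφ : ∀ i, Function.Injective (φ i))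
    (pc : ∀ i, {v // v ∉ X i} → P) (hpc : ∀ i j y y', pc i y = pc j y' → i = j)
    (e : P → Q) (he : Function.Injective e) (β : Q → B) (t : Q → Finset A)
    (hdis : ∀ q q', q ≠ q' → β q = β q' → Disjoint (t q) (t q'))
    (ht : ∀ i x y, (τ i).Adj x.1 y.1 → φ i x ∈ t (e (pc i y)))
    (hconf : ∀ i, Function.Injective (fun y => β (e (pc i y))))
    (eA : A ≃ Fin (2 * n - 1)) (eB : B ≃ I) : Pk n τ := by
  let f : I → Fin (2 * n) → Fin (2 * n - 1) ⊕ I := fun i v =>
    if h : v ∈ X i then Sum.inl (eA (φ i ⟨v, h⟩)) else Sum.inr (eB (β (e (pc i ⟨v, h⟩))))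
  have f1 : ∀ i v (h : v ∈ X i), f i v = Sum.inl (eA (φ i ⟨v, h⟩)) := fun i v h => dif_pos h
  have f2 : ∀ i v (h : v ∉ X i), f i v = Sum.inr (eB (β (e (pc i ⟨v, h⟩)))) :=
    fun i v h => dif_neg h
  have hfX : ∀ i j v w, f i v = f j w → (v ∈ X i ↔ w ∈ X j) := by
    intro i j v w h
    by_cases hv : v ∈ X i <;> by_cases hw : w ∈ X j
    · exact ⟨fun _ => hw, fun _ => hv⟩
    · rw [f1 i v hv, f2 j w hw] at h
      exact absurd h (by simp)
    · rw [f2 i v hv, f1 j w hw] at h
      exact absurd h (by simp)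
    · exact ⟨fun h => absurd h hv, fun h => absurd h hw⟩
  have key : ∀ i j x y x' y', x ∈ X i → (τ i).Adj x y → (τ j).Adj x' y' → f i x = f j x' →
      f i y = f j y' → i = j := by
    intro i j x y x' y' hx hxy hxy' h1 h2
    have hx' : x' ∈ X j := (hfX i j x x' h1).1 hx
    have hy : y ∉ X i := (hX i x y hxy).1 hx
    have hy' : y' ∉ X j := (hX j x' y' hxy').1 hx'
    rw [f1 i x hx, f1 j x' hx'] at h1
    rw [f2 i y hy, f2 j y' hy'] at h2
    have e1 := eA.injective (Sum.inl.inj h1)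
    have e2 := eB.injective (Sum.inr.inj h2)
    have m1 := ht i ⟨x, hx⟩ ⟨y, hy⟩ hxy
    have m2 := ht j ⟨x', hx'⟩ ⟨y', hy'⟩ hxy'
    rw [← e1] at m2
    by_cases hq : e (pc i ⟨y, hy⟩) = e (pc j ⟨y', hy'⟩)
    · exact hpc _ _ _ _ (he hq)
    · exact absurd m2 (disjoint_left.1 (hdis _ _ hq e2) m1)
  refine ⟨f, ?_, ?_, ?_⟩
  · intro i v w hvw
    by_cases hv : v ∈ X i
    · have hw : w ∈ X i := (hfX i i v w hvw).1 hv
      rw [f1 i v hv, f1 i w hw] at hvw
      exact congrArg Subtype.val (hφ i (eA.injective (Sum.inl.inj hvw)))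
    · have hw : w ∉ X i := fun h => hv ((hfX i i v w hvw).2 h)
      rw [f2 i v hv, f2 i w hw] at hvw
      exact congrArg Subtype.val (hconf i (eB.injective (Sum.inr.inj hvw)))
  · intro i a b hab
    by_cases ha : a ∈ X i
    · rw [f1 i a ha, f2 i b ((hX i a b hab).1 ha)]
      simp
    · have hb : b ∈ X i := by
        by_contra hb
        exact ha ((hX i a b hab).2 hb)
      rw [f2 i a ha, f1 i b hb]
      simp
  · intro i j a b c d hab hcd hac hbd
    by_cases ha : a ∈ X i
    · exact key i j a b c d ha hab hcd hac hbd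
    · have hb : b ∈ X i := by
        by_contra hb
        exact ha ((hX i a b hab).2 hb)
      exact key i j b a d c hb hab.symm hcd.symm hbd hac

section

variable {A Y YT : Type} [Fintype A] [Fintype Y] [Fintype YT]

abbrev I0 (A : Type) (α : Equiv.Perm A → ℕ) : Type := Σ σ : Equiv.Perm A, Fin (α σ)

abbrev PP (YT Y A : Type) (α : Equiv.Perm A → ℕ) : Type := YT ⊕ (I0 A α × Y)

abbrev QQ (Y A : Type) {YT : Type} (zs : YT) (β : Equiv.Perm A → ℕ) : Type :=
  YT ⊕ ((I0 A β × Y) ⊕ ({z : YT // z ≠ zs} × Y))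

def cc {α : Equiv.Perm A → ℕ} : PP YT Y A α → Unit ⊕ I0 A α
  | Sum.inl _ => Sum.inl ()
  | Sum.inr q => Sum.inr q.1

noncomputable def bb {zs : YT} (E : YT → Finset Y) {β : Equiv.Perm A → ℕ} :
    QQ Y A zs β → YT ⊕ I0 A β
  | Sum.inl z => Sum.inl z
  | Sum.inr (Sum.inl q) => Sum.inr q.1
  | Sum.inr (Sum.inr q) => if q.2 ∈ E q.1.1 then Sum.inl zs else Sum.inl q.1.1

def ss (ST : YT → Finset A) (S : Y → Finset A) {α : Equiv.Perm A → ℕ} :
    PP YT Y A α → Finset A
  | Sum.inl z => ST z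
  | Sum.inr q => act q.1.1 (S q.2)

def tt0 (P : Y → Finset A) {zs : YT} (V : YT → Y → Finset A) {β : Equiv.Perm A → ℕ} :
    (I0 A β × Y) ⊕ ({z : YT // z ≠ zs} × Y) → Finset A
  | Sum.inl q => act q.1.1 (P q.2)
  | Sum.inr q => V q.1.1 q.2

def tt (ST : YT → Finset A) (P : Y → Finset A) {zs : YT} (V : YT → Y → Finset A)
    {β : Equiv.Perm A → ℕ} : QQ Y A zs β → Finset A
  | Sum.inl z => ST z
  | Sum.inr q => tt0 P V q

lemma bb_pos {zs : YT} (E : YT → Finset Y) {β : Equiv.Perm A → ℕ} (z : {z : YT // z ≠ zs})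
    (y : Y) (h : y ∈ E z.1) :
    bb E (Sum.inr (Sum.inr (z, y)) : QQ Y A zs β) = Sum.inl zs := if_pos h

lemma bb_neg {zs : YT} (E : YT → Finset Y) {β : Equiv.Perm A → ℕ} (z : {z : YT // z ≠ zs})
    (y : Y) (h : y ∉ E z.1) :
    bb E (Sum.inr (Sum.inr (z, y)) : QQ Y A zs β) = Sum.inl z.1 := if_neg h

lemma count_sigma (α : Equiv.Perm A → ℕ) (F : Y → Finset A) (R : Finset A) :
    Nat.card {p : I0 A α × Y // act p.1.1 (F p.2) = R} =
      ∑ σ, α σ * (univ.filter (fun y => act σ (F y) = R)).card := by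
  rw [Nat.card_eq_fintype_card, Fintype.card_subtype, card_filter, Fintype.sum_prod_type,
    Fintype.sum_sigma]
  apply sum_congr rfl
  intro σ _
  rw [card_filter]
  show ∑ _x : Fin (α σ), ∑ y, (if act σ (F y) = R then 1 else 0) = _
  rw [sum_const, card_univ, Fintype.card_fin, smul_eq_mul]

lemma count_tt0 {zs : YT} (β : Equiv.Perm A → ℕ) (P : Y → Finset A) (V : YT → Y → Finset A)
    (R : Finset A) :
    Nat.card {q : (I0 A β × Y) ⊕ ({z : YT // z ≠ zs} × Y) // tt0 P V q = R} =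
      ∑ σ, β σ * (univ.filter (fun y => act σ (P y) = R)).card +
        (univ.filter (fun zy : {z : YT // z ≠ zs} × Y => V zy.1.1 zy.2 = R)).card := by
  rw [← count_sigma β P R, ← Fintype.card_subtype, ← Nat.card_eq_fintype_card, ← Nat.card_sum]
  apply Nat.card_congr
  exact
    { toFun := fun p => match p with
        | ⟨Sum.inl i, h⟩ => Sum.inl ⟨i, h⟩
        | ⟨Sum.inr j, h⟩ => Sum.inr ⟨j, h⟩
      invFun := fun q => match q with
        | Sum.inl p => ⟨Sum.inl p.1, p.2⟩
        | Sum.inr p => ⟨Sum.inr p.1, p.2⟩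
      left_inv := by rintro ⟨i | j, h⟩ <;> rfl
      right_inv := by rintro (p | p) <;> rfl }

lemma bb_disjoint {zs : YT} {ST : YT → Finset A} {P : Y → Finset A} {V : YT → Y → Finset A}
    {E : YT → Finset Y} (β : Equiv.Perm A → ℕ)
    (hP : ∀ y y', y ≠ y' → Disjoint (P y) (P y'))
    (v2 : ∀ z, z ≠ zs → ∀ y, y ∉ E z → Disjoint (V z y) (ST z))
    (v3 : ∀ z, z ≠ zs → ∀ y y', y ∉ E z → y' ∉ E z → y ≠ y' → Disjoint (V z y) (V z y'))
    (v4 : ∀ z, z ≠ zs → ∀ y, y ∈ E z → Disjoint (V z y) (ST zs))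
    (v5 : ∀ z z', z ≠ zs → z' ≠ zs → ∀ y y', y ∈ E z → y' ∈ E z' → (z, y) ≠ (z', y') →
        Disjoint (V z y) (V z' y')) (q q' : QQ Y A zs β) (hqq : q ≠ q')
    (hb : bb E q = bb E q') : Disjoint (tt ST P V q) (tt ST P V q') := by
  have hd1 : ∀ (z : YT) (z' : {z : YT // z ≠ zs}) (y : Y),
      bb E (Sum.inl z : QQ Y A zs β) = bb E (Sum.inr (Sum.inr (z', y)) : QQ Y A zs β) →
      Disjoint (ST z) (V z'.1 y) := by
    intro z z' y h
    by_cases hy : y ∈ E z'.1
    · rw [bb_pos E z' y hy] at h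
      have h3 : z = zs := Sum.inl.inj h
      rw [h3]
      exact (v4 z'.1 z'.2 y hy).symm
    · rw [bb_neg E z' y hy] at h
      have h3 : z = z'.1 := Sum.inl.inj h
      rw [h3]
      exact (v2 z'.1 z'.2 y hy).symm
  have hne : ∀ (q : I0 A β × Y) (z' : {z : YT // z ≠ zs}) (y : Y),
      bb E (Sum.inr (Sum.inl q) : QQ Y A zs β) ≠
        bb E (Sum.inr (Sum.inr (z', y)) : QQ Y A zs β) := by
    intro q z' y h
    by_cases hy : y ∈ E z'.1
    · rw [bb_pos E z' y hy] at h
      exact absurd h (by simp [bb])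
    · rw [bb_neg E z' y hy] at h
      exact absurd h (by simp [bb])
  rcases q with z | q | ⟨z, y⟩ <;> rcases q' with z' | q' | ⟨z', y'⟩
  · have h3 : z = z' := Sum.inl.inj hb
    exact absurd (by rw [h3]) hqq
  · exact absurd hb (by simp [bb])
  · exact hd1 z z' y' hb
  · exact absurd hb (by simp [bb])
  · have h3 : q.1 = q'.1 := Sum.inr.inj hb
    have h4 : q.2 ≠ q'.2 := by
      intro h4
      exact hqq (by rw [Prod.ext h3 h4])
    show Disjoint (act q.1.1 (P q.2)) (act q'.1.1 (P q'.2))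
    rw [← h3]
    unfold act
    rw [disjoint_map]
    exact hP _ _ h4
  · exact absurd hb (hne q z' y')
  · exact (hd1 z' z y hb.symm).symm
  · exact absurd hb.symm (hne q' z y)
  · show Disjoint (V z.1 y) (V z'.1 y')
    by_cases hy : y ∈ E z.1 <;> by_cases hy' : y' ∈ E z'.1
    · apply v5 z.1 z'.1 z.2 z'.2 y y' hy hy'
      intro h
      apply hqq
      have h5 : z.1 = z'.1 := congrArg Prod.fst h
      have h6 : y = y' := congrArg Prod.snd h
      rw [Subtype.ext h5, h6]
    · rw [bb_pos E z y hy, bb_neg E z' y' hy'] at hb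
      exact absurd (Sum.inl.inj hb).symm z'.2
    · rw [bb_neg E z y hy, bb_pos E z' y' hy'] at hb
      exact absurd (Sum.inl.inj hb) z.2
    · rw [bb_neg E z y hy, bb_neg E z' y' hy'] at hb
      have h5 : z = z' := Subtype.ext (Sum.inl.inj hb)
      subst h5
      apply v3 z.1 z.2 y y' hy hy'
      rintro rfl
      exact hqq rfl

theorem slots {n : ℕ} (hcY : Fintype.card Y = n) (hcYT : Fintype.card YT = n)
    (hcA : Fintype.card A = 2 * n - 1) (hn : 2 ≤ n) (S P : Y → Finset A)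
    (hP : ∀ y y', y ≠ y' → Disjoint (P y) (P y')) {y1 y0 : Y} (hy : y1 ≠ y0)
    (hy0 : (P y0).card = 1) (hSP : ∀ y, (S y).card = (P y).card) (hPpos : ∀ y, 1 ≤ (P y).card)
    (hPsum : ∑ y, (P y).card = 2 * n - 1) {a0 a1 : A} (h0 : a0 ∈ S y1)
    (h0' : ∀ y, y ≠ y1 → a0 ∉ S y) (h1 : ∀ y, a1 ∉ S y) (ST : YT → Finset A)
    (hSTpos : ∀ z, 1 ≤ (ST z).card) (hSTsum : ∑ z, (ST z).card = 2 * n - 1) (zs : YT) :
    ∃ (N : ℕ) (α β : Equiv.Perm A → ℕ) (E : YT → Finset Y) (V : YT → Y → Finset A)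
      (e : PP YT Y A α ≃ QQ Y A zs β),
      Nat.card (I0 A α) = Nat.card (Equiv.Perm A) * N ∧
      Nat.card (I0 A β) + (n - 1) = Nat.card (Equiv.Perm A) * N ∧
      (∀ q q' : QQ Y A zs β, q ≠ q' → bb E q = bb E q' →
        Disjoint (tt ST P V q) (tt ST P V q')) ∧
      (∀ p, tt ST P V (e p) = ss ST S p) ∧
      ∀ p p', cc p = cc p' → bb E (e p) = bb E (e p') → p = p' := by
  obtain ⟨E, V, v1, v2, v3, v4, v5⟩ := special (A := A) (fun y => (P y).card) hPpos
    (by rw [hPsum, hcA]) (by rw [hcA, hcY]; omega) ST (by rw [hSTsum, hcA]) zs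
  have cZ : Fintype.card {z : YT // z ≠ zs} = n - 1 := by
    have : Fintype.card {z : YT // ¬ z = zs} = n - 1 := by
      rw [Fintype.card_subtype_compl, Fintype.card_subtype_eq, hcYT]
    exact this
  obtain ⟨N, α, β, hα, hαs, hβs, _, hR⟩ := mult (Z := {z : YT // z ≠ zs}) S P hP hy hy0
    hSP h0 h0' h1 (fun z y => V z.1 y) (fun z y => v1 z.1 z.2 y) (n + n * (2 * n - 1) + 1)
  have c1 : Nat.card (I0 A α) = ∑ σ, α σ := by
    rw [Nat.card_eq_fintype_card, Fintype.card_sigma]
    exact sum_congr rfl (fun σ _ => Fintype.card_fin _)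
  have c2 : Nat.card (I0 A β) = ∑ σ, β σ := by
    rw [Nat.card_eq_fintype_card, Fintype.card_sigma]
    exact sum_congr rfl (fun σ _ => Fintype.card_fin _)
  obtain ⟨e00, he00⟩ := exists_equiv_of_fiber_card
    (fun p : I0 A α × Y => act p.1.1 (S p.2)) (tt0 (zs := zs) (β := β) P V)
    (fun R => (count_sigma α S R).trans ((hR R).trans (count_tt0 β P V R).symm))
  let e0 : PP YT Y A α ≃ QQ Y A zs β := Equiv.sumCongr (Equiv.refl YT) e00
  have he0 : ∀ p, tt ST P V (e0 p) = ss ST S p := by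
    rintro (z | q)
    · rfl
    · exact he00 q
  have hdis := fun q q' h h' => bb_disjoint (ST := ST) β hP v2 v3 v4 v5 q q' h h'
  have hnonempty : ∀ q : QQ Y A zs β, (tt ST P V q).Nonempty := by
    rintro (z | q | ⟨z, y⟩)
    · exact card_pos.1 (hSTpos z)
    · apply card_pos.1
      show 0 < (act q.1.1 (P q.2)).card
      rw [card_act]
      exact hPpos _
    · apply card_pos.1
      show 0 < (V z.1 y).card
      rw [v1 z.1 z.2 y]
      exact hPpos _
  obtain ⟨e, he1, he2⟩ := remove_conflicts (cc (YT := YT) (Y := Y) (A := A) (α := α))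
    (bb E) (ss ST S) (tt ST P V) (fun p => ∃ q, p = Sum.inr q) n (2 * n - 1)
    e0 he0
    (by
      intro q q' hb htt
      by_contra hne
      have h1 := hdis q q' hne hb
      rw [← htt, disjoint_self_iff_empty] at h1
      have := hnonempty q
      rw [h1] at this
      exact absurd this (by simp))
    (by
      rintro (z | q) (z' | q') hc ⟨r, hr⟩
      · exact absurd hr (by simp)
      · exact ⟨q', rfl⟩
      · exact absurd hc (by simp [cc])
      · exact ⟨q', rfl⟩)
    (by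
      rintro (u | j)
      · have h1 : Nat.card {p : PP YT Y A α // cc p = Sum.inl u} ≤ Nat.card YT := by
          apply Nat.card_le_card_of_surjective
            (fun z : YT => (⟨Sum.inl z, rfl⟩ : {p : PP YT Y A α // cc p = Sum.inl u}))
          rintro ⟨z | q, hp⟩
          · exact ⟨z, rfl⟩
          · exact absurd hp (by simp [cc])
        rwa [Nat.card_eq_fintype_card (α := YT), hcYT] at h1
      · have h1 : Nat.card {p : PP YT Y A α // cc p = Sum.inr j} ≤ Nat.card Y := by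
          apply Nat.card_le_card_of_surjective
            (fun y : Y => (⟨Sum.inr (j, y), rfl⟩ : {p : PP YT Y A α // cc p = Sum.inr j}))
          rintro ⟨z | q, hp⟩
          · exact absurd hp (by simp [cc])
          · have h3 : q.1 = j := Sum.inr.inj hp
            refine ⟨q.2, ?_⟩
            apply Subtype.ext
            show (Sum.inr (j, q.2) : PP YT Y A α) = Sum.inr q
            rw [← h3]
        rwa [Nat.card_eq_fintype_card (α := Y), hcY] at h1)
    (by
      intro b
      choose g hg using hnonempty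
      have h1 : Nat.card {q : QQ Y A zs β // bb E q = b} ≤ Nat.card A := by
        apply Nat.card_le_card_of_injective (fun q => g q.1)
        rintro ⟨q, hq⟩ ⟨q', hq'⟩ hgg
        apply Subtype.ext
        by_contra hne
        have h2 := hdis q q' hne (hq.trans hq'.symm)
        have h3 := hg q'
        simp only at hgg
        rw [← hgg] at h3
        exact disjoint_left.1 h2 (hg q) h3
      rwa [Nat.card_eq_fintype_card (α := A), hcA] at h1)
    (by
      rintro p ⟨⟨⟨σ, j0⟩, y⟩, rfl⟩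
      have h1 : Nat.card (Fin (α σ)) ≤
          Nat.card {p' : PP YT Y A α // (∃ q, p' = Sum.inr q) ∧
            ss ST S p' = ss ST S (Sum.inr (⟨σ, j0⟩, y) : PP YT Y A α)} := by
        apply Nat.card_le_card_of_injective
          (fun j => (⟨Sum.inr ((⟨σ, j⟩ : I0 A α), y), ⟨_, rfl⟩, rfl⟩ :
            {p' : PP YT Y A α // (∃ q, p' = Sum.inr q) ∧
              ss ST S p' = ss ST S (Sum.inr (⟨σ, j0⟩, y) : PP YT Y A α)}))
        intro j j' hjj
        have h2 := congrArg Prod.fst (Sum.inr.inj (congrArg Subtype.val hjj))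
        simpa using h2
      rw [Nat.card_eq_fintype_card (α := Fin (α σ)), Fintype.card_fin] at h1
      have h2 := hα σ
      omega)
    (by
      rintro (z | q) (z' | q') h1 h2 hc hb
      · have h3 : z = z' := Sum.inl.inj hb
        rw [h3]
      · exact absurd ⟨q', rfl⟩ h2
      · exact absurd ⟨q, rfl⟩ h1
      · exact absurd ⟨q, rfl⟩ h1)
  refine ⟨N, α, β, E, V, e, ?_, ?_, hdis, he1, he2⟩
  · rw [c1, hαs, mul_comm, Nat.card_eq_fintype_card]
  · rw [c2, ← cZ, hβs, mul_comm, Nat.card_eq_fintype_card]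

end

lemma mem_nb {V : Type} [Fintype V] {T : SimpleGraph V} {X : Set V} {x : {v : V // v ∈ X}}
    {y : {v : V // v ∉ X}} : x ∈ nb T X y ↔ T.Adj x.1 y.1 := by
  unfold nb
  rw [mem_filter]
  exact ⟨fun h => h.2, fun h => ⟨mem_univ _, h⟩⟩

lemma count_family {G I : Type} [Fintype I] (T T0 g : G) :
    Fintype.card {i : Unit ⊕ I // Sum.elim (fun _ : Unit => T) (fun _ : I => T0) i = g} =
      (if T = g then 1 else 0) + (if T0 = g then Fintype.card I else 0) := by
  rw [Fintype.card_subtype, card_filter, Fintype.sum_sum_type]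
  by_cases h1 : T = g <;> by_cases h2 : T0 = g <;> simp [h1, h2]

theorem one_and_many {n : ℕ} (hn : 2 ≤ n) {T T0 : SimpleGraph (Fin (2 * n))}
    (hT : IsBalancedTree n T) (hT0 : IsBalancedTree n T0) :
    ∃ N, Pi.single T 1 + Pi.single T0 ((2 * n - 1).factorial * N) ∈ goodMonoid n := by
  obtain ⟨hTree, XT, hXT1, hXT2, hXT⟩ := hT
  obtain ⟨hTree0, X0, hX01, hX02, hX0⟩ := hT0
  have cA : Fintype.card (Fin (2 * n - 1)) = 2 * n - 1 := Fintype.card_fin _
  have cYT := card_right hXT2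
  have cY0 := card_right hX02
  obtain ⟨φT⟩ : Nonempty ({v // v ∈ XT} ↪ Fin (2 * n - 1)) :=
    Function.Embedding.nonempty_of_card_le (by rw [card_left hXT1, cA]; omega)
  obtain ⟨φ0⟩ : Nonempty ({v // v ∈ X0} ↪ Fin (2 * n - 1)) :=
    Function.Embedding.nonempty_of_card_le (by rw [card_left hX01, cA]; omega)
  have hsum0 := sum_nb hTree0 hX01 hX02 hX0
  have hsumT := sum_nb hTree hXT1 hXT2 hXT
  -- standard bin
  obtain ⟨Pf, hPf1, hPf2⟩ := disjoint_family (A := Fin (2 * n - 1))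
    (fun y => (nb T0 X0 y).card) univ univ (by rw [hsum0, card_univ, cA])
  have hPcard : ∀ y, (Pf y).card = (nb T0 X0 y).card := fun y => (hPf1 y (mem_univ _)).2
  have hPdis : ∀ y y', y ≠ y' → Disjoint (Pf y) (Pf y') := fun y y' h =>
    hPf2 y (mem_univ _) y' (mem_univ _) h
  obtain ⟨x0, y1, y0, hy10, hy0, hx0, hx0'⟩ := leaves hn hTree0 hX01 hX02 hX0
  obtain ⟨a1, ha1⟩ : ∃ a1 : Fin (2 * n - 1), a1 ∉ Set.range φ0 := by
    by_contra hno
    push Not at hno
    have hs : Function.Surjective φ0 := fun a => hno a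
    have := Fintype.card_le_of_surjective _ hs
    rw [card_left hX01, cA] at this
    omega
  obtain ⟨zs⟩ : Nonempty {v // v ∉ XT} := Fintype.card_pos_iff.1 (by rw [cYT]; omega)
  obtain ⟨N, α, β, E, V, e, hcα, hcβ, hdis, he1, he2⟩ := slots cY0 cYT cA hn
    (fun y => (nb T0 X0 y).map φ0) Pf hPdis hy10 (by rw [hPcard, hy0])
    (fun y => by rw [card_map, hPcard])
    (fun y => by rw [hPcard]; exact nb_pos (by omega) hTree0 hX01 hX02 hX0 y)
    (by rw [sum_congr rfl (fun y _ => hPcard y), hsum0]) (a0 := φ0 x0) (a1 := a1)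
    (mem_map.2 ⟨x0, hx0, rfl⟩)
    (fun y hy h => by
      obtain ⟨x, hx, hxx⟩ := mem_map.1 h
      rw [φ0.injective hxx] at hx
      exact hx0' y hy hx)
    (fun y h => by
      obtain ⟨x, hx, hxx⟩ := mem_map.1 h
      exact ha1 ⟨x, hxx⟩)
    (fun z => (nb T XT z).map φT)
    (fun z => by rw [card_map]; exact nb_pos (by omega) hTree hXT1 hXT2 hXT z)
    (by rw [sum_congr rfl (fun z _ => card_map φT), hsumT]) zs
  have hcα' : Fintype.card (I0 (Fin (2 * n - 1)) α) = (2 * n - 1).factorial * N := by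
    rw [← Nat.card_eq_fintype_card, hcα, Nat.card_eq_fintype_card, Fintype.card_perm, cA]
  have hcβ' : Fintype.card (I0 (Fin (2 * n - 1)) β) + (n - 1) = (2 * n - 1).factorial * N := by
    rw [← Nat.card_eq_fintype_card, hcβ, Nat.card_eq_fintype_card, Fintype.card_perm, cA]
  have hcard : Fintype.card ({v // v ∉ XT} ⊕ I0 (Fin (2 * n - 1)) β) =
      Fintype.card (Unit ⊕ I0 (Fin (2 * n - 1)) α) := by
    rw [Fintype.card_sum, Fintype.card_sum, Fintype.card_unit, hcα', ← hcβ', cYT]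
    omega
  have hpack : Pk n (Sum.elim (fun _ : Unit => T) (fun _ : I0 (Fin (2 * n - 1)) α => T0)) := by
    refine pack_of_slots (I := Unit ⊕ I0 (Fin (2 * n - 1)) α) (A := Fin (2 * n - 1))
      (Sum.elim (fun _ : Unit => T) (fun _ : I0 (Fin (2 * n - 1)) α => T0))
      (Sum.elim (fun _ : Unit => XT) (fun _ : I0 (Fin (2 * n - 1)) α => X0)) ?_
      (fun i => match i with
        | Sum.inl _ => fun x => φT x
        | Sum.inr j => fun x => j.1 (φ0 x)) ?_
      (fun i => match i with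
        | Sum.inl _ => fun z => Sum.inl z
        | Sum.inr j => fun y => Sum.inr (j, y)) ?_ e e.injective (bb E) _ hdis ?_ ?_
      (Equiv.refl _) (Fintype.equivOfCardEq hcard)
    · rintro (u | j) a b hab
      · exact hXT a b hab
      · exact hX0 a b hab
    · rintro (u | j) x x' hxx
      · exact φT.injective hxx
      · exact φ0.injective (j.1.injective hxx)
    · rintro (u | j) (u' | j') y y' hyy
      · rfl
      · exact absurd hyy (by simp)
      · exact absurd hyy (by simp)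
      · have := congrArg Prod.fst (Sum.inr.inj hyy)
        simp only at this
        rw [this]
    · rintro (u | j) x y hxy
      · show φT x ∈ tt _ Pf V (e (Sum.inl y))
        rw [he1]
        exact mem_map.2 ⟨x, mem_nb.2 hxy, rfl⟩
      · show j.1 (φ0 x) ∈ tt _ Pf V (e (Sum.inr (j, y)))
        rw [he1]
        show j.1 (φ0 x) ∈ act j.1 ((nb T0 X0 y).map φ0)
        rw [mem_act]
        have h3 : (j.1)⁻¹ (j.1 (φ0 x)) = φ0 x := by simp
        rw [h3]
        exact mem_map.2 ⟨x, mem_nb.2 hxy, rfl⟩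
    · rintro (u | j) y y' hyy
      · have := he2 (Sum.inl y) (Sum.inl y') rfl hyy
        exact Sum.inl.inj this
      · have := he2 (Sum.inr (j, y)) (Sum.inr (j, y')) rfl hyy
        exact congrArg Prod.snd (Sum.inr.inj this)
  refine ⟨N, Good_of hpack ?_⟩
  intro g
  rw [count_family, hcα', Pi.add_apply, Pi.single_apply, Pi.single_apply]
  by_cases h1 : T = g
  · by_cases h2 : T0 = g
    · rw [if_pos h1, if_pos h2, if_pos h1.symm, if_pos h2.symm]
    · rw [if_pos h1, if_neg h2, if_pos h1.symm, if_neg (fun h => h2 h.symm)]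
  · by_cases h2 : T0 = g
    · rw [if_neg h1, if_pos h2, if_neg (fun h => h1 h.symm), if_pos h2.symm]
    · rw [if_neg h1, if_neg h2, if_neg (fun h => h1 h.symm), if_neg (fun h => h2 h.symm)]

end Pool.Agent.R39.Dec
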