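import Mathlib
import Pool.Agent.R39.Dec.Defs

set_option autoImplicit false
set_option linter.unusedSectionVars false

/-! # Trees given by a parent function -/

namespace Pool.Agent.R39.Dec

open Finset Classical

/-- graph on `Fin N` where `i ≥ 1` is joined to `p i` -/
def parentGraph (N : ℕ) (p : ℕ → ℕ) : SimpleGraph (Fin N) :=
  SimpleGraph.fromRel (fun i j : Fin N => 1 ≤ i.val ∧ p i.val = j.val)

lemma parentGraph_adj {N : ℕ} {p : ℕ → ℕ} (hp : ∀ i, 1 ≤ i → p i < i) (i j : Fin N) :
    (parentGraph N p).Adj i j ↔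
      (1 ≤ i.val ∧ p i.val = j.val) ∨ (1 ≤ j.val ∧ p j.val = i.val) := by
  unfold parentGraph
  rw [SimpleGraph.fromRel_adj]
  constructor
  · rintro ⟨_, h⟩
    exact h
  · intro h
    refine ⟨?_, h⟩
    rintro rfl
    rcases h with ⟨h1, h2⟩ | ⟨h1, h2⟩ <;> have := hp _ h1 <;> omega

theorem parentGraph_isTree {N : ℕ} {p : ℕ → ℕ} (hN : 1 ≤ N) (hp : ∀ i, 1 ≤ i → p i < i) :
    (parentGraph N p).IsTree := by
  have h0 : 0 < N := hN
  have hreach : ∀ m (hm : m < N), (parentGraph N p).Reachable ⟨m, hm⟩ ⟨0, h0⟩ := by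
    intro m
    induction m using Nat.strong_induction_on with
    | _ m ih =>
      intro hm
      by_cases h : 1 ≤ m
      · have h1 := hp m h
        have h2 : (parentGraph N p).Adj ⟨m, hm⟩ ⟨p m, by omega⟩ :=
          (parentGraph_adj hp _ _).2 (Or.inl ⟨h, rfl⟩)
        exact h2.reachable.trans (ih (p m) h1 (by omega))
      · have : m = 0 := by omega
        subst this
        exact SimpleGraph.Reachable.refl _
  haveI : Nonempty (Fin N) := ⟨⟨0, h0⟩⟩
  have hconn : (parentGraph N p).Connected := by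
    refine ⟨?_⟩
    intro i j
    exact (hreach i.1 i.2).trans (hreach j.1 j.2).symm
  rw [SimpleGraph.isTree_iff_connected_and_card]
  refine ⟨hconn, ?_⟩
  have hbij : Nat.card {i : Fin N // 1 ≤ i.val} = Nat.card (parentGraph N p).edgeSet := by
    apply Nat.card_congr
    refine Equiv.ofBijective (fun i => ⟨s(i.1, ⟨p i.1.1, (hp _ i.2).trans i.1.2⟩), ?_⟩) ⟨?_, ?_⟩
    · rw [SimpleGraph.mem_edgeSet]
      exact (parentGraph_adj hp _ _).2 (Or.inl ⟨i.2, rfl⟩)
    · rintro ⟨i, hi⟩ ⟨j, hj⟩ hij
      have h := congrArg Subtype.val hij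
      simp only [Sym2.eq_iff] at h
      rcases h with ⟨h1, _⟩ | ⟨h1, h2⟩
      · exact Subtype.ext h1
      · have e1 := congrArg Fin.val h1
        have e2 := congrArg Fin.val h2
        simp only at e1 e2
        have h3 := hp _ hi
        have h4 := hp _ hj
        omega
    · rintro ⟨e, he⟩
      induction e using Sym2.ind with
      | _ a b =>
        rw [SimpleGraph.mem_edgeSet] at he
        rcases (parentGraph_adj hp _ _).1 he with ⟨h1, h2⟩ | ⟨h1, h2⟩
        · refine ⟨⟨a, h1⟩, ?_⟩
          apply Subtype.ext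
          simp only [Sym2.eq_iff]
          exact Or.inl ⟨trivial, Fin.ext h2⟩
        · refine ⟨⟨b, h1⟩, ?_⟩
          apply Subtype.ext
          simp only [Sym2.eq_iff]
          exact Or.inr ⟨trivial, Fin.ext h2⟩
  rw [← hbij, Nat.card_eq_fintype_card, Nat.card_eq_fintype_card, Fintype.card_fin]
  have h1 : Fintype.card {i : Fin N // 1 ≤ i.val} = Fintype.card {i : Fin N // ¬ i = ⟨0, h0⟩} := by
    apply Fintype.card_congr
    apply Equiv.subtypeEquivRight
    intro i
    rw [Fin.ext_iff]
    simp only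
    omega
  rw [h1, Fintype.card_subtype_compl, Fintype.card_subtype_eq, Fintype.card_fin]
  omega

/-- the path on `2n` vertices -/
def pathT (n : ℕ) : SimpleGraph (Fin (2 * n)) := parentGraph (2 * n) (fun i => i - 1)

lemma pathT_adj {n : ℕ} (i j : Fin (2 * n)) :
    (pathT n).Adj i j ↔ i.val = j.val + 1 ∨ j.val = i.val + 1 := by
  unfold pathT
  rw [parentGraph_adj (fun i hi => by omega)]
  omega

lemma pathT_balanced {n : ℕ} (hn : 1 ≤ n) : IsBalancedTree n (pathT n) := by
  refine ⟨parentGraph_isTree (by omega) (fun i hi => by omega), {i | i.val % 2 = 0}, ?_, ?_, ?_⟩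
  · rw [← Nat.card_coe_set_eq]
    have : Nat.card (Fin n) = Nat.card {i : Fin (2 * n) | i.val % 2 = 0} := by
      apply Nat.card_congr
      refine Equiv.ofBijective (fun j => ⟨⟨2 * j.1, by omega⟩, ?_⟩) ⟨?_, ?_⟩
      · show (2 * j.1) % 2 = 0
        omega
      · intro a b hab
        have := congrArg (fun x => x.1.1) hab
        simp only at this
        exact Fin.ext (by omega)
      · rintro ⟨⟨i, hi⟩, hi2⟩
        have hi3 : i % 2 = 0 := hi2
        refine ⟨⟨i / 2, by omega⟩, ?_⟩
        apply Subtype.ext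
        apply Fin.ext
        show 2 * (i / 2) = i
        omega
    rw [← this, Nat.card_eq_fintype_card, Fintype.card_fin]
  · rw [← Nat.card_coe_set_eq]
    have : Nat.card (Fin n) = Nat.card (({i : Fin (2 * n) | i.val % 2 = 0}ᶜ : Set _) : Type) := by
      apply Nat.card_congr
      refine Equiv.ofBijective (fun j => ⟨⟨2 * j.1 + 1, by omega⟩, ?_⟩) ⟨?_, ?_⟩
      · show ¬ ((2 * j.1 + 1) % 2 = 0)
        omega
      · intro a b hab
        have := congrArg (fun x => x.1.1) hab
        simp only at this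
        exact Fin.ext (by omega)
      · rintro ⟨⟨i, hi⟩, hi2⟩
        have hi3 : ¬ (i % 2 = 0) := hi2
        refine ⟨⟨i / 2, by omega⟩, ?_⟩
        apply Subtype.ext
        apply Fin.ext
        show 2 * (i / 2) + 1 = i
        omega
    rw [← this, Nat.card_eq_fintype_card, Fintype.card_fin]
  · intro a b hab
    rw [pathT_adj] at hab
    show a.val % 2 = 0 ↔ ¬ (b.val % 2 = 0)
    omega

end Pool.Agent.R39.Dec
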