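import Mathlib
import Pool.Agent.R39.Dec.Parent

set_option autoImplicit false
set_option linter.unusedSectionVars false

/-! # The parity obstruction for paths -/

namespace Pool.Agent.R39.Dec

open Finset Classical

section

variable {n k m : ℕ} (hn : 1 ≤ n) (f : Fin m → Fin (2 * n) → Fin (2 * n - 1) ⊕ Fin k)
  (hinj : ∀ i, Function.Injective (f i))
  (hadj : ∀ i a b, (pathT n).Adj a b →
    (completeBipartiteGraph (Fin (2 * n - 1)) (Fin k)).Adj (f i a) (f i b))
  (hdisj : ∀ i j a b c d, (pathT n).Adj a b → (pathT n).Adj c d → f i a = f j c → f i b = f j d →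
    i = j)

include hn hadj in
lemma path_edge (i : Fin m) (v : Fin (2 * n - 1)) : ∃ p : Fin (2 * n - 1) × Fin k,
    (f i ⟨v.1, by omega⟩ = Sum.inl p.1 ∧ f i ⟨v.1 + 1, by omega⟩ = Sum.inr p.2) ∨
    (f i ⟨v.1, by omega⟩ = Sum.inr p.2 ∧ f i ⟨v.1 + 1, by omega⟩ = Sum.inl p.1) := by
  have h1 : (pathT n).Adj (⟨v.1, by omega⟩ : Fin (2 * n)) ⟨v.1 + 1, by omega⟩ := by
    rw [pathT_adj]
    exact Or.inr rfl
  have h2 := hadj i _ _ h1
  rcases h3 : f i ⟨v.1, by omega⟩ with a | b <;> rcases h4 : f i ⟨v.1 + 1, by omega⟩ with a' | b' <;>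
    rw [h3, h4] at h2
  · exact absurd h2 (by simp)
  · exact ⟨(a, b'), Or.inl ⟨rfl, rfl⟩⟩
  · exact ⟨(a', b), Or.inr ⟨rfl, rfl⟩⟩
  · exact absurd h2 (by simp)

include hn hinj hadj hdisj in
lemma path_inj : ∃ g : Fin m × Fin (2 * n - 1) → Fin (2 * n - 1) × Fin k,
    Function.Injective g ∧ ∀ q, ∃ v w, (pathT n).Adj v w ∧ f q.1 v = Sum.inl (g q).1 ∧
      f q.1 w = Sum.inr (g q).2 := by
  choose g hg using path_edge hn f hadj
  have hadj1 : ∀ v : Fin (2 * n - 1), (pathT n).Adj (⟨v.1, by omega⟩ : Fin (2 * n))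
      ⟨v.1 + 1, by omega⟩ := fun v => by
    rw [pathT_adj]
    exact Or.inr rfl
  refine ⟨fun q => g q.1 q.2, ?_, ?_⟩
  · rintro ⟨i, v⟩ ⟨j, w⟩ h
    simp only at h
    have hi := hg i v
    have hj := hg j w
    rw [← h] at hj
    have hij : i = j := by
      rcases hi with ⟨h1, h2⟩ | ⟨h1, h2⟩ <;> rcases hj with ⟨h3, h4⟩ | ⟨h3, h4⟩
      · exact hdisj i j _ _ _ _ (hadj1 v) (hadj1 w) (h1.trans h3.symm) (h2.trans h4.symm)
      · exact hdisj i j _ _ _ _ (hadj1 v) (hadj1 w).symm (h1.trans h4.symm) (h2.trans h3.symm)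
      · exact hdisj i j _ _ _ _ (hadj1 v) (hadj1 w).symm (h1.trans h4.symm) (h2.trans h3.symm)
      · exact hdisj i j _ _ _ _ (hadj1 v) (hadj1 w) (h1.trans h3.symm) (h2.trans h4.symm)
    subst hij
    have hvw : v = w := by
      rcases hi with ⟨h1, h2⟩ | ⟨h1, h2⟩ <;> rcases hj with ⟨h3, h4⟩ | ⟨h3, h4⟩
      · have e := congrArg Fin.val (hinj i (h1.trans h3.symm))
        simp only at e
        exact Fin.ext e
      · have e := congrArg Fin.val (hinj i (h1.trans h4.symm))
        have e' := congrArg Fin.val (hinj i (h2.trans h3.symm))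
        simp only at e e'
        omega
      · have e := congrArg Fin.val (hinj i (h1.trans h4.symm))
        have e' := congrArg Fin.val (hinj i (h2.trans h3.symm))
        simp only at e e'
        omega
      · have e := congrArg Fin.val (hinj i (h1.trans h3.symm))
        simp only at e
        exact Fin.ext e
    rw [hvw]
  · rintro ⟨i, v⟩
    rcases hg i v with ⟨h1, h2⟩ | ⟨h1, h2⟩
    · exact ⟨_, _, hadj1 v, h1, h2⟩
    · exact ⟨_, _, (hadj1 v).symm, h2, h1⟩

include hn hinj hadj hdisj in
lemma path_count : m ≤ k := by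
  obtain ⟨g, hg, _⟩ := path_inj hn f hinj hadj hdisj
  have h := Fintype.card_le_of_injective g hg
  rw [Fintype.card_prod, Fintype.card_prod, Fintype.card_fin, Fintype.card_fin, Fintype.card_fin,
    mul_comm] at h
  exact Nat.le_of_mul_le_mul_left h (by omega)

include hn hinj hadj hdisj in
lemma path_cover (hm : m = k) (a : Fin (2 * n - 1)) (b : Fin k) :
    ∃ i, ∃ v w, (pathT n).Adj v w ∧ f i v = Sum.inl a ∧ f i w = Sum.inr b := by
  obtain ⟨g, hg, hg2⟩ := path_inj hn f hinj hadj hdisj
  have hb : Function.Bijective g := by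
    rw [Fintype.bijective_iff_injective_and_card]
    refine ⟨hg, ?_⟩
    rw [Fintype.card_prod, Fintype.card_prod, Fintype.card_fin, Fintype.card_fin, Fintype.card_fin,
      hm, mul_comm]
  obtain ⟨q, hq⟩ := hb.2 (a, b)
  obtain ⟨v, w, h1, h2, h3⟩ := hg2 q
  rw [hq] at h2 h3
  exact ⟨q.1, v, w, h1, h2, h3⟩

include hn hadj in
lemma path_side (i : Fin m) (v : ℕ) (hv : v < 2 * n) :
    ((f i ⟨v, hv⟩).isLeft = true) ↔
      (((f i ⟨0, by omega⟩).isLeft = true) ↔ v % 2 = 0) := by
  induction v with
  | zero => simp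
  | succ v ih =>
    have ih' := ih (by omega)
    have h1 : (pathT n).Adj (⟨v, by omega⟩ : Fin (2 * n)) ⟨v + 1, hv⟩ := by
      rw [pathT_adj]
      exact Or.inr rfl
    have h2 := hadj i _ _ h1
    have h3 : ((f i ⟨v, by omega⟩).isLeft = true) ↔ ¬ ((f i ⟨v + 1, hv⟩).isLeft = true) := by
      rcases h3 : f i ⟨v, by omega⟩ with a | b <;> rcases h4 : f i ⟨v + 1, hv⟩ with a' | b' <;>
        rw [h3, h4] at h2 <;> simp at h2 ⊢
    have h4 : (v + 1) % 2 = 0 ↔ ¬ (v % 2 = 0) := by omega
    rw [h4]
    tauto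

include hn hinj hadj hdisj in
lemma path_parity (hcov : ∀ (a : Fin (2 * n - 1)) (b : Fin k), ∃ i, ∃ v w, (pathT n).Adj v w ∧
    f i v = Sum.inl a ∧ f i w = Sum.inr b) (hk : Odd k) : 2 * n - 1 ≤ m := by
  -- every vertex of the left side is an end of some path
  have hend : ∀ a : Fin (2 * n - 1), ∃ i, ∃ v : Fin (2 * n), (v.1 = 0 ∨ v.1 = 2 * n - 1) ∧
      f i v = Sum.inl a := by
    intro a
    by_contra hno
    push Not at hno
    choose c hc using hcov a
    have hfib : ∀ i, Even (univ.filter (fun b => c b = i)).card := by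
      intro i
      by_cases h : ∃ v, f i v = Sum.inl a
      · obtain ⟨v, hv⟩ := h
        have hv0 : ¬ (v.1 = 0 ∨ v.1 = 2 * n - 1) := fun h => hno i v h hv
        push Not at hv0
        have hv2 := v.2
        have hpl : (pathT n).Adj v ⟨v.1 - 1, by omega⟩ := by
          rw [pathT_adj]
          left
          simp only
          omega
        have hpr : (pathT n).Adj v ⟨v.1 + 1, by omega⟩ := by
          rw [pathT_adj]
          right
          rfl
        have hl := hadj i _ _ hpl
        have hr := hadj i _ _ hpr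
        obtain ⟨b1, hb1⟩ : ∃ b1, f i ⟨v.1 - 1, by omega⟩ = Sum.inr b1 := by
          rcases h4 : f i ⟨v.1 - 1, by omega⟩ with a' | b'
          · rw [hv, h4] at hl
            exact absurd hl (by simp)
          · exact ⟨b', rfl⟩
        obtain ⟨b2, hb2⟩ : ∃ b2, f i ⟨v.1 + 1, by omega⟩ = Sum.inr b2 := by
          rcases h4 : f i ⟨v.1 + 1, by omega⟩ with a' | b'
          · rw [hv, h4] at hr
            exact absurd hr (by simp)
          · exact ⟨b', rfl⟩
        have hb12 : b1 ≠ b2 := by
          rintro rfl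
          have := congrArg Fin.val (hinj i (hb1.trans hb2.symm))
          simp only at this
          omega
        have hset : univ.filter (fun b => c b = i) = {b1, b2} := by
          ext b
          simp only [mem_filter, mem_univ, true_and, mem_insert, mem_singleton]
          constructor
          · intro hb
            obtain ⟨v', w', h1, h2, h3⟩ := hc b
            rw [hb] at h2 h3
            have hvv : v' = v := hinj i (h2.trans hv.symm)
            rw [hvv, pathT_adj] at h1
            rcases h1 with h1 | h1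
            · left
              have : w' = ⟨v.1 - 1, by omega⟩ := Fin.ext (by simp only; omega)
              rw [this, hb1] at h3
              exact (Sum.inr.inj h3).symm
            · right
              have : w' = ⟨v.1 + 1, by omega⟩ := Fin.ext h1
              rw [this, hb2] at h3
              exact (Sum.inr.inj h3).symm
          · rintro (rfl | rfl)
            · obtain ⟨v', w', h1, h2, h3⟩ := hc b
              exact hdisj _ _ _ _ _ _ h1 hpl (h2.trans hv.symm) (h3.trans hb1.symm)
            · obtain ⟨v', w', h1, h2, h3⟩ := hc b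
              exact hdisj _ _ _ _ _ _ h1 hpr (h2.trans hv.symm) (h3.trans hb2.symm)
        rw [hset, card_pair hb12]
        exact ⟨1, rfl⟩
      · have hset : univ.filter (fun b => c b = i) = ∅ := by
          rw [filter_eq_empty_iff]
          intro b _ hb
          obtain ⟨v', w', h1, h2, h3⟩ := hc b
          rw [hb] at h2
          exact h ⟨v', h2⟩
        rw [hset, card_empty]
        exact ⟨0, rfl⟩
    have hsum : k = ∑ i, (univ.filter (fun b => c b = i)).card := by
      have := card_eq_sum_card_fiberwise (s := (univ : Finset (Fin k))) (t := univ) (f := c)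
        (fun _ _ => mem_univ _)
      rw [card_univ, Fintype.card_fin] at this
      exact this
    have heven : Even k := by
      rw [hsum]
      exact even_sum _ (fun i _ => hfib i)
    exact (Nat.not_even_iff_odd.2 hk) heven
  choose e v he hev using hend
  have hinj2 : Function.Injective e := by
    intro a a' haa
    have h1 := hev a
    have h2 := hev a'
    rw [← haa] at h2
    have s1 := path_side hn f hadj (e a) (v a).1 (v a).2
    have s2 := path_side hn f hadj (e a) (v a').1 (v a').2
    have t1 : (f (e a) ⟨(v a).1, (v a).2⟩).isLeft = true := by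
      rw [show (⟨(v a).1, (v a).2⟩ : Fin (2 * n)) = v a from rfl, h1]
      rfl
    have t2 : (f (e a) ⟨(v a').1, (v a').2⟩).isLeft = true := by
      rw [show (⟨(v a').1, (v a').2⟩ : Fin (2 * n)) = v a' from rfl, h2]
      rfl
    have u1 := s1.1 t1
    have u2 := s2.1 t2
    have hvv : v a = v a' := by
      apply Fin.ext
      have w1 : (v a).1 % 2 = 0 ↔ (v a').1 % 2 = 0 := by tauto
      have x1 := he a
      have x2 := he a'
      omega
    rw [hvv] at h1
    exact Sum.inl.inj (h1.symm.trans h2)
  have := Fintype.card_le_of_injective e hinj2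
  rwa [Fintype.card_fin, Fintype.card_fin] at this

end

/-- no odd `k < 2n-1` belongs to `S n` -/
theorem odd_not_mem_S {n k : ℕ} (hn : 1 ≤ n) (hk : Odd k) (hlt : k < 2 * n - 1) : k ∉ S n := by
  rintro ⟨_, h⟩
  obtain ⟨m, f, hinj, hadj, hcov⟩ := h (Fin (2 * n)) (pathT n) (pathT_balanced hn)
  have hdisj : ∀ i j a b c d, (pathT n).Adj a b → (pathT n).Adj c d → f i a = f j c →
      f i b = f j d → i = j := by
    intro i j a b c d h1 h2 h3 h4
    obtain ⟨u, _, hu⟩ := hcov (f i a) (f i b) (hadj i a b h1)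
    rw [hu i ⟨a, b, h1, rfl, rfl⟩, hu j ⟨c, d, h2, h3.symm, h4.symm⟩]
  have h1 := path_count hn f hinj hadj hdisj
  have h2 := path_parity hn f hinj hadj hdisj
    (fun a b => (hcov (Sum.inl a) (Sum.inr b) (by simp)).exists) hk
  omega

end Pool.Agent.R39.Dec
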