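import Mathlib
import Pool.Agent.R39.Dec.One
import Pool.Agent.R39.Dec.Parity

set_option autoImplicit false
set_option linter.unusedSectionVars false

/-! # `P n k` holds for all large `k` -/

namespace Pool.Agent.R39.Dec

open Finset Classical

theorem eventually_good {n : ℕ} (hn : 2 ≤ n) : ∃ K : ℕ, ∀ μ : SimpleGraph (Fin (2 * n)) → ℕ,
    (∀ t, μ t ≠ 0 → IsBalancedTree n t) → K ≤ ∑ t, μ t → Good n μ := by
  have hq : ∀ t t0 : SimpleGraph (Fin (2 * n)), ∃ q : ℕ, IsBalancedTree n t →
      IsBalancedTree n t0 →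
      Pi.single t 1 + Pi.single t0 ((2 * n - 1).factorial * q) ∈ goodMonoid n := by
    intro t t0
    by_cases h : IsBalancedTree n t ∧ IsBalancedTree n t0
    · obtain ⟨q, hq⟩ := one_and_many hn h.1 h.2
      exact ⟨q, fun _ _ => hq⟩
    · exact ⟨0, fun h1 h2 => absurd ⟨h1, h2⟩ h⟩
  choose q hq using hq
  obtain ⟨c, hc⟩ : ∃ c, c = (2 * n - 1).factorial := ⟨_, rfl⟩
  have hcpos : 0 < c := by
    rw [hc]
    exact Nat.factorial_pos _
  obtain ⟨Q, hQ⟩ : ∃ Q, Q = ∑ t, ∑ t0, q t t0 := ⟨_, rfl⟩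
  have hQle : ∀ t t0, q t t0 ≤ Q := by
    intro t t0
    rw [hQ]
    refine le_trans ?_ (single_le_sum (f := fun t => ∑ t0, q t t0) (fun _ _ => Nat.zero_le _)
      (mem_univ t))
    exact single_le_sum (f := fun t0 => q t t0) (fun _ _ => Nat.zero_le _) (mem_univ t0)
  have hblock : ∀ t, IsBalancedTree n t → (Pi.single t c : SimpleGraph (Fin (2 * n)) → ℕ) ∈
      goodMonoid n := by
    intro t ht
    rw [hc]
    exact Good_group (by omega) ht
  have hpair : ∀ t t0, IsBalancedTree n t → IsBalancedTree n t0 →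
      (Pi.single t 1 + Pi.single t0 (c * Q) : SimpleGraph (Fin (2 * n)) → ℕ) ∈
        goodMonoid n := by
    intro t t0 ht ht0
    have h1 := hq t t0 ht ht0
    have h2 := (goodMonoid n).nsmul_mem (hblock t0 ht0) (Q - q t t0)
    have h3 := (goodMonoid n).add_mem h1 h2
    have h4 : (Pi.single t 1 + Pi.single t0 ((2 * n - 1).factorial * q t t0) +
        (Q - q t t0) • Pi.single t0 c : SimpleGraph (Fin (2 * n)) → ℕ) =
        Pi.single t 1 + Pi.single t0 (c * Q) := by
      rw [← hc, add_assoc, ← Pi.single_smul, ← Pi.single_add, smul_eq_mul]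
      congr 2
      rw [mul_comm (Q - q t t0) c, ← Nat.mul_add, Nat.add_sub_cancel' (hQle t t0)]
    rwa [h4] at h3
  obtain ⟨s, hs⟩ : ∃ s, s = Fintype.card (SimpleGraph (Fin (2 * n))) := ⟨_, rfl⟩
  have hspos : 0 < s := by
    rw [hs]
    exact Fintype.card_pos_iff.2 ⟨⊥⟩
  refine ⟨s * (c * (s * c * Q) + 1), ?_⟩
  intro μ hμ hK
  obtain ⟨t0, ht0⟩ : ∃ t0, c * (s * c * Q) + 1 ≤ μ t0 := by
    by_contra hno
    push Not at hno
    have h1 : ∑ t, μ t < ∑ _t : SimpleGraph (Fin (2 * n)), (c * (s * c * Q) + 1) := by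
      apply sum_lt_sum_of_nonempty ⟨⊥, mem_univ _⟩
      intro t _
      exact hno t
    rw [sum_const, card_univ, ← hs, smul_eq_mul] at h1
    omega
  have hbt0 : IsBalancedTree n t0 := hμ t0 (by omega)
  obtain ⟨R, hR⟩ : ∃ R, R = ∑ t, μ t % c := ⟨_, rfl⟩
  have hRle : R ≤ s * c := by
    have h1 : ∑ t, μ t % c ≤ ∑ _t : SimpleGraph (Fin (2 * n)), c :=
      sum_le_sum (fun t _ => (Nat.mod_lt _ hcpos).le)
    rw [sum_const, card_univ, ← hs, smul_eq_mul] at h1
    rw [hR]
    exact h1
  have hdiv : R * Q ≤ μ t0 / c := by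
    rw [Nat.le_div_iff_mul_le hcpos]
    have h1 : R * Q * c ≤ s * c * Q * c := by
      apply Nat.mul_le_mul_right
      exact Nat.mul_le_mul_right _ hRle
    have h2 : s * c * Q * c = c * (s * c * Q) := by ring
    omega
  have hsplit : μ = ∑ t, (μ t % c) • (Pi.single t 1 + Pi.single t0 (c * Q)) +
      ∑ t, (μ t / c - if t = t0 then R * Q else 0) •
        (Pi.single t c : SimpleGraph (Fin (2 * n)) → ℕ) := by
    funext g
    rw [Pi.add_apply, Finset.sum_apply, Finset.sum_apply]
    have e1 : ∑ t, ((μ t % c) • (Pi.single t 1 + Pi.single t0 (c * Q)) :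
        SimpleGraph (Fin (2 * n)) → ℕ) g = μ g % c + if g = t0 then R * (c * Q) else 0 := by
      have : ∀ t, ((μ t % c) • (Pi.single t 1 + Pi.single t0 (c * Q)) :
          SimpleGraph (Fin (2 * n)) → ℕ) g =
          (if t = g then μ t % c else 0) + (if g = t0 then (μ t % c) * (c * Q) else 0) := by
        intro t
        rw [Pi.smul_apply, Pi.add_apply, Pi.single_apply, Pi.single_apply, smul_eq_mul]
        by_cases h1 : g = t
        · by_cases h2 : g = t0
          · rw [if_pos h1, if_pos h2, if_pos h1.symm, if_pos h2]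
            ring
          · rw [if_pos h1, if_neg h2, if_pos h1.symm, if_neg h2]
            ring
        · by_cases h2 : g = t0
          · rw [if_neg h1, if_pos h2, if_neg (fun h => h1 h.symm), if_pos h2]
            ring
          · rw [if_neg h1, if_neg h2, if_neg (fun h => h1 h.symm), if_neg h2]
            ring
      rw [sum_congr rfl (fun t _ => this t), sum_add_distrib, sum_ite_eq']
      rw [if_pos (mem_univ _)]
      congr 1
      by_cases h2 : g = t0
      · simp only [h2, if_true]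
        rw [← sum_mul, ← hR]
      · simp only [h2, if_false, sum_const_zero]
    have e2 : ∑ t, ((μ t / c - if t = t0 then R * Q else 0) •
        (Pi.single t c : SimpleGraph (Fin (2 * n)) → ℕ)) g =
        (μ g / c - if g = t0 then R * Q else 0) * c := by
      rw [sum_eq_single g]
      · rw [Pi.smul_apply, Pi.single_eq_same, smul_eq_mul]
      · intro t _ ht
        rw [Pi.smul_apply, Pi.single_eq_of_ne (fun h => ht h.symm), smul_zero]
      · intro h
        exact absurd (mem_univ _) h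
    rw [e1, e2]
    have h3 := Nat.mod_add_div (μ g) c
    by_cases h2 : g = t0
    · rw [if_pos h2, if_pos h2]
      rw [h2] at h3 ⊢
      obtain ⟨m, hm⟩ := Nat.exists_eq_add_of_le hdiv
      rw [hm] at h3 ⊢
      rw [Nat.add_sub_cancel_left]
      refine h3.symm.trans ?_
      ring
    · rw [if_neg h2, if_neg h2, add_zero, Nat.sub_zero, mul_comm (μ g / c) c]
      exact h3.symm
  show μ ∈ goodMonoid n
  rw [hsplit]
  apply (goodMonoid n).add_mem
  · apply sum_mem
    intro t _
    by_cases h : μ t = 0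
    · rw [h, Nat.zero_mod, zero_smul]
      exact (goodMonoid n).zero_mem
    · exact (goodMonoid n).nsmul_mem (hpair t t0 (hμ t h) hbt0) _
  · apply sum_mem
    intro t _
    by_cases h : μ t = 0
    · rw [h, Nat.zero_div, Nat.zero_sub, zero_smul]
      exact (goodMonoid n).zero_mem
    · exact (goodMonoid n).nsmul_mem (hblock t (hμ t h)) _

lemma balanced_comap {n : ℕ} {V W : Type} [Fintype V] [Fintype W] {T : SimpleGraph V}
    (hT : IsBalancedTree n T) (e : V ≃ W) : IsBalancedTree n (T.comap e.symm) := by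
  obtain ⟨hTree, X, hX1, hX2, hX⟩ := hT
  refine ⟨(SimpleGraph.Iso.comap e.symm T).isTree_iff.2 hTree, e '' X, ?_, ?_, ?_⟩
  · rw [Set.ncard_image_of_injective _ e.injective, hX1]
  · rw [← Set.image_compl_eq e.bijective, Set.ncard_image_of_injective _ e.injective, hX2]
  · intro a b hab
    rw [SimpleGraph.comap_adj] at hab
    have h := hX _ _ hab
    have hm : ∀ w, w ∈ e '' X ↔ e.symm w ∈ X := by
      intro w
      constructor
      · rintro ⟨v, hv, rfl⟩
        rwa [Equiv.symm_apply_apply]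
      · intro h
        exact ⟨_, h, Equiv.apply_symm_apply _ _⟩
    rw [hm, hm]
    exact h

lemma P_one (k : ℕ) : P 1 k := by
  intro V _ T hT
  choose hTree X hX1 hX2 hX using hT
  have u1 : ∀ i a b, a ∈ X i → b ∈ X i → a = b := by
    intro i a b ha hb
    obtain ⟨x, hx⟩ := Set.ncard_eq_one.1 (hX1 i)
    rw [hx] at ha hb
    rw [ha, hb]
  have u2 : ∀ i a b, a ∉ X i → b ∉ X i → a = b := by
    intro i a b ha hb
    obtain ⟨x, hx⟩ := Set.ncard_eq_one.1 (hX2 i)
    have ha' : a ∈ (X i)ᶜ := ha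
    have hb' : b ∈ (X i)ᶜ := hb
    rw [hx] at ha' hb'
    rw [ha', hb']
  let f : ∀ i, V i → Fin (2 * 1 - 1) ⊕ Fin k := fun i v =>
    if v ∈ X i then Sum.inl ⟨0, by omega⟩ else Sum.inr i
  have f1 : ∀ i v, v ∈ X i → f i v = Sum.inl ⟨0, by omega⟩ := fun i v h => if_pos h
  have f2 : ∀ i v, v ∉ X i → f i v = Sum.inr i := fun i v h => if_neg h
  refine ⟨f, ?_, ?_, ?_⟩
  · intro i a b hab
    by_cases ha : a ∈ X i <;> by_cases hb : b ∈ X i
    · exact u1 i a b ha hb
    · rw [f1 i a ha, f2 i b hb] at hab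
      exact absurd hab (by simp)
    · rw [f2 i a ha, f1 i b hb] at hab
      exact absurd hab (by simp)
    · exact u2 i a b ha hb
  · intro i a b hab
    by_cases ha : a ∈ X i
    · rw [f1 i a ha, f2 i b ((hX i a b hab).1 ha)]
      simp
    · have hb : b ∈ X i := by
        by_contra hb
        exact ha ((hX i a b hab).2 hb)
      rw [f2 i a ha, f1 i b hb]
      simp
  · intro i j hij a b c d hab hcd h
    have key : ∀ (i : Fin k) (a b : V i), (T i).Adj a b →
        s(f i a, f i b) = s(Sum.inl ⟨0, by omega⟩, Sum.inr i) := by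
      intro i a b hab
      by_cases ha : a ∈ X i
      · rw [f1 i a ha, f2 i b ((hX i a b hab).1 ha)]
      · have hb : b ∈ X i := by
          by_contra hb
          exact ha ((hX i a b hab).2 hb)
        rw [f2 i a ha, f1 i b hb]
        exact Sym2.eq_swap
    rw [key i a b hab, key j c d hcd, Sym2.eq_iff] at h
    rcases h with ⟨_, h⟩ | ⟨h, _⟩
    · exact hij (Sum.inr.inj h)
    · exact absurd h (by simp)

theorem P_iff {n k : ℕ} : P n k ↔ ∀ τ : Fin k → SimpleGraph (Fin (2 * n)),
    (∀ i, IsBalancedTree n (τ i)) → Pk n τ := by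
  constructor
  · intro h τ hτ
    obtain ⟨f, f1, f2, f3⟩ := h (fun _ => Fin (2 * n)) τ hτ
    refine ⟨f, f1, f2, ?_⟩
    intro i j a b c d h1 h2 h3 h4
    by_contra hij
    exact f3 i j hij a b c d h1 h2 (by rw [h3, h4])
  · intro h V _ T hT
    have hcV : ∀ i, Fintype.card (V i) = 2 * n := by
      intro i
      obtain ⟨_, X, hX1, hX2, _⟩ := hT i
      exact card_V hX1 hX2
    let e : ∀ i, V i ≃ Fin (2 * n) := fun i => Fintype.equivFinOfCardEq (hcV i)
    let τ : Fin k → SimpleGraph (Fin (2 * n)) := fun i => (T i).comap (e i).symm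
    have hτ : ∀ i, IsBalancedTree n (τ i) := fun i => balanced_comap (hT i) (e i)
    obtain ⟨f, f1, f2, f3⟩ := h τ hτ
    have hadj : ∀ i a b, (T i).Adj a b → (τ i).Adj (e i a) (e i b) := by
      intro i a b hab
      show (T i).Adj ((e i).symm (e i a)) ((e i).symm (e i b))
      rwa [Equiv.symm_apply_apply, Equiv.symm_apply_apply]
    refine ⟨fun i v => f i (e i v), ?_, ?_, ?_⟩
    · intro i v w hvw
      exact (e i).injective (f1 i hvw)
    · intro i a b hab
      exact f2 i _ _ (hadj i a b hab)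
    · intro i j hij a b c d hab hcd h
      rw [Sym2.eq_iff] at h
      rcases h with ⟨h1, h2⟩ | ⟨h1, h2⟩
      · exact hij (f3 i j _ _ _ _ (hadj i a b hab) (hadj j c d hcd) h1 h2)
      · exact hij (f3 i j _ _ _ _ (hadj i a b hab) (hadj j c d hcd).symm h1 h2)

/-- superadditivity -/
theorem P_add {n k l : ℕ} (hk : P n k) (hl : P n l) : P n (k + l) := by
  rw [P_iff] at hk hl ⊢
  intro τ hτ
  have h1 := hk (fun i => τ (finSumFinEquiv (Sum.inl i))) (fun i => hτ _)
  have h2 := hl (fun i => τ (finSumFinEquiv (Sum.inr i))) (fun i => hτ _)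
  have h3 := Pk_equiv finSumFinEquiv.symm (Pk_sum h1 h2)
  have h4 : (fun j => Sum.elim (fun i => τ (finSumFinEquiv (Sum.inl i)))
      (fun i => τ (finSumFinEquiv (Sum.inr i))) (finSumFinEquiv.symm j)) = τ := by
    funext j
    obtain ⟨x, rfl⟩ := finSumFinEquiv.surjective j
    rw [Equiv.symm_apply_apply]
    rcases x with x | x <;> rfl
  rwa [h4] at h3

theorem P_eventually {n : ℕ} (hn : 1 ≤ n) : ∃ K, ∀ k, K ≤ k → P n k := by
  by_cases h1 : n = 1
  · rw [h1]
    exact ⟨0, fun k _ => P_one k⟩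
  obtain ⟨K, hK⟩ := eventually_good (n := n) (by omega)
  refine ⟨K, ?_⟩
  intro k hk
  rw [P_iff]
  intro τ hτ
  have hgood := hK (fun t => Fintype.card {i // τ i = t}) (by
    intro t ht
    obtain ⟨⟨i, hi⟩⟩ := Fintype.card_pos_iff.1 (Nat.pos_of_ne_zero ht)
    rw [← hi]
    exact hτ i) (by
    have h2 : ∑ t, Fintype.card {i // τ i = t} = k := by
      rw [← Fintype.card_sigma, Fintype.card_congr (Equiv.sigmaFiberEquiv τ), Fintype.card_fin]
    rw [h2]
    exact hk)
  exact hgood (Fin k) τ (fun t => rfl)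

theorem not_P_odd {n k : ℕ} (hn : 1 ≤ n) (hk : Odd k) (hlt : k < 2 * n - 1) : ¬ P n k := by
  intro h
  obtain ⟨f, f1, f2, f3⟩ := h (fun _ => Fin (2 * n)) (fun _ => pathT n)
    (fun _ => pathT_balanced hn)
  have hdisj : ∀ i j a b c d, (pathT n).Adj a b → (pathT n).Adj c d → f i a = f j c →
      f i b = f j d → i = j := by
    intro i j a b c d h1 h2 h3 h4
    by_contra hij
    exact f3 i j hij a b c d h1 h2 (by rw [h3, h4])
  have h2 := path_parity hn f f1 f2 hdisj (path_cover hn f f1 f2 hdisj rfl) hk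
  omega

end Pool.Agent.R39.Dec
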