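import Mathlib
import Pool.Agent.R39.Dec.Final

set_option autoImplicit false
set_option linter.unusedSectionVars false

/-! # From packings to decompositions -/

namespace Pool.Agent.R39.Dec

open Finset Classical

/-- a packing of `k` copies into `K_{2n-1,k}` is a decomposition -/
theorem mem_S_of_P {n k : ℕ} (hk : 1 ≤ k) (h : P n k) : k ∈ S n := by
  refine ⟨hk, ?_⟩
  intro V _ T hT
  obtain ⟨f, f1, f2, f3⟩ := h (fun _ => V) (fun _ => T) (fun _ => hT)
  obtain ⟨hTree, X, hX1, hX2, hX⟩ := hT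
  have hdisj : ∀ i j a b c d, T.Adj a b → T.Adj c d → f i a = f j c → f i b = f j d → i = j := by
    intro i j a b c d h1 h2 h3 h4
    by_contra hij
    exact f3 i j hij a b c d h1 h2 (by rw [h3, h4])
  -- the edges of the copies
  have hcE := card_edges hTree hX1 hX2 hX
  have hedge : ∀ (i : Fin k) (p : {p : {v : V // v ∈ X} × {v : V // v ∉ X} // T.Adj p.1.1 p.2.1}),
      ∃ q : Fin (2 * n - 1) × Fin k,
        (f i p.1.1.1 = Sum.inl q.1 ∧ f i p.1.2.1 = Sum.inr q.2) ∨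
        (f i p.1.1.1 = Sum.inr q.2 ∧ f i p.1.2.1 = Sum.inl q.1) := by
    intro i p
    have h2 := f2 i _ _ p.2
    rcases h3 : f i p.1.1.1 with a | b <;> rcases h4 : f i p.1.2.1 with a' | b' <;>
      rw [h3, h4] at h2
    · exact absurd h2 (by simp)
    · exact ⟨(a, b'), Or.inl ⟨rfl, rfl⟩⟩
    · exact ⟨(a', b), Or.inr ⟨rfl, rfl⟩⟩
    · exact absurd h2 (by simp)
  choose g hg using hedge
  have hinj : Function.Injective (fun ip : Fin k ×
      {p : {v : V // v ∈ X} × {v : V // v ∉ X} // T.Adj p.1.1 p.2.1} => g ip.1 ip.2) := by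
    rintro ⟨i, p⟩ ⟨j, q⟩ h
    simp only at h
    have hi := hg i p
    have hj := hg j q
    rw [← h] at hj
    have hij : i = j := by
      rcases hi with ⟨h1, h2⟩ | ⟨h1, h2⟩ <;> rcases hj with ⟨h3, h4⟩ | ⟨h3, h4⟩
      · exact hdisj i j _ _ _ _ p.2 q.2 (h1.trans h3.symm) (h2.trans h4.symm)
      · exact hdisj i j _ _ _ _ p.2 q.2.symm (h1.trans h4.symm) (h2.trans h3.symm)
      · exact hdisj i j _ _ _ _ p.2 q.2.symm (h1.trans h4.symm) (h2.trans h3.symm)
      · exact hdisj i j _ _ _ _ p.2 q.2 (h1.trans h3.symm) (h2.trans h4.symm)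
    subst hij
    have hpq : p = q := by
      rcases hi with ⟨h1, h2⟩ | ⟨h1, h2⟩ <;> rcases hj with ⟨h3, h4⟩ | ⟨h3, h4⟩
      · exact Subtype.ext (Prod.ext (Subtype.ext (f1 i (h1.trans h3.symm)))
          (Subtype.ext (f1 i (h2.trans h4.symm))))
      · have e := f1 i (h1.trans h4.symm)
        exact absurd (e ▸ p.1.1.2) q.1.2.2
      · have e := f1 i (h1.trans h4.symm)
        exact absurd (e ▸ p.1.1.2) q.1.2.2
      · exact Subtype.ext (Prod.ext (Subtype.ext (f1 i (h1.trans h3.symm)))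
          (Subtype.ext (f1 i (h2.trans h4.symm))))
    rw [hpq]
  have hbij : Function.Bijective (fun ip : Fin k ×
      {p : {v : V // v ∈ X} × {v : V // v ∉ X} // T.Adj p.1.1 p.2.1} => g ip.1 ip.2) := by
    rw [Fintype.bijective_iff_injective_and_card]
    refine ⟨hinj, ?_⟩
    rw [Fintype.card_prod, Fintype.card_prod, hcE, Fintype.card_fin, Fintype.card_fin, mul_comm]
  have hcov : ∀ (a : Fin (2 * n - 1)) (b : Fin k), ∃ i, ∃ v w, T.Adj v w ∧
      f i v = Sum.inl a ∧ f i w = Sum.inr b := by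
    intro a b
    obtain ⟨⟨i, p⟩, hp⟩ := hbij.2 (a, b)
    simp only at hp
    have hi := hg i p
    rw [hp] at hi
    rcases hi with ⟨h1, h2⟩ | ⟨h1, h2⟩
    · exact ⟨i, _, _, p.2, h1, h2⟩
    · exact ⟨i, _, _, p.2.symm, h2, h1⟩
  refine ⟨k, f, f1, f2, ?_⟩
  intro x y hxy
  have hex : ∃ i, ∃ a b, T.Adj a b ∧ f i a = x ∧ f i b = y := by
    rcases x with a | b <;> rcases y with a' | b'
    · exact absurd hxy (by simp)
    · exact hcov a b'
    · obtain ⟨i, v, w, h1, h2, h3⟩ := hcov a' b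
      exact ⟨i, w, v, h1.symm, h3, h2⟩
    · exact absurd hxy (by simp)
  obtain ⟨i, a, b, h1, h2, h3⟩ := hex
  refine ⟨i, ⟨a, b, h1, h2, h3⟩, ?_⟩
  rintro j ⟨a', b', h4, h5, h6⟩
  exact hdisj j i _ _ _ _ h4 h1 (h5.trans h2.symm) (h6.trans h3.symm)

theorem S_cofinite {n : ℕ} (hn : 1 ≤ n) : ∃ K, ∀ k, K ≤ k → k ∈ S n := by
  obtain ⟨K, hK⟩ := P_eventually hn
  exact ⟨K + 1, fun k hk => mem_S_of_P (by omega) (hK k (by omega))⟩

end Pool.Agent.R39.Dec
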