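import Mathlib
import Pool.Agent.R39.Dec.Parent

set_option autoImplicit false
set_option linter.unusedSectionVars false

/-! # Two stars joined by a path: `n ∉ S n` for `n ≥ 4` -/

namespace Pool.Agent.R39.Dec

open Finset Classical

/-- enough copies are needed to cover all edges -/
lemma cover_count {n k m : ℕ} (hn : 1 ≤ n) {p : ℕ → ℕ} (hp : ∀ i, 1 ≤ i → p i < i)
    (f : Fin m → Fin (2 * n) → Fin (2 * n - 1) ⊕ Fin k)
    (hcov : ∀ (a : Fin (2 * n - 1)) (b : Fin k), ∃ i, ∃ v w, (parentGraph (2 * n) p).Adj v w ∧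
      f i v = Sum.inl a ∧ f i w = Sum.inr b) : k ≤ m := by
  choose c v w h1 h2 h3 using hcov
  have hlt : ∀ a b, max (v a b).1 (w a b).1 - 1 < 2 * n - 1 := by
    intro a b
    have := (v a b).2
    have := (w a b).2
    omega
  let g : Fin (2 * n - 1) × Fin k → Fin m × Fin (2 * n - 1) :=
    fun q => (c q.1 q.2, ⟨_, hlt q.1 q.2⟩)
  have hg : Function.Injective g := by
    rintro ⟨a, b⟩ ⟨a', b'⟩ h
    simp only [g, Prod.mk.injEq, Fin.mk.injEq] at h
    obtain ⟨hc, hm⟩ := h
    have e1 := (parentGraph_adj hp _ _).1 (h1 a b)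
    have e2 := (parentGraph_adj hp _ _).1 (h1 a' b')
    have hh : (v a b = v a' b' ∧ w a b = w a' b') ∨ (v a b = w a' b' ∧ w a b = v a' b') := by
      rcases e1 with ⟨e1, e3⟩ | ⟨e1, e3⟩ <;> rcases e2 with ⟨e2, e4⟩ | ⟨e2, e4⟩ <;>
        have k1 := hp _ e1 <;> have k2 := hp _ e2
      · left
        have : (v a b).1 = (v a' b').1 := by omega
        refine ⟨Fin.ext this, Fin.ext ?_⟩
        rw [← e3, ← e4, this]
      · right
        have : (v a b).1 = (w a' b').1 := by omega
        refine ⟨Fin.ext this, Fin.ext ?_⟩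
        rw [← e3, ← e4, this]
      · right
        have : (w a b).1 = (v a' b').1 := by omega
        refine ⟨Fin.ext ?_, Fin.ext this⟩
        rw [← e3, ← e4, this]
      · left
        have : (w a b).1 = (w a' b').1 := by omega
        refine ⟨Fin.ext ?_, Fin.ext this⟩
        rw [← e3, ← e4, this]
    have a1 := h2 a b
    have a2 := h3 a b
    have a3 := h2 a' b'
    have a4 := h3 a' b'
    rw [← hc] at a3 a4
    rcases hh with ⟨x1, x2⟩ | ⟨x1, x2⟩
    · rw [← x1] at a3
      rw [← x2] at a4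
      rw [Sum.inl.inj (a1.symm.trans a3), Sum.inr.inj (a2.symm.trans a4)]
    · rw [← x1] at a4
      exact absurd (a1.symm.trans a4) (by simp)
  have h := Fintype.card_le_of_injective g hg
  rw [Fintype.card_prod, Fintype.card_prod, Fintype.card_fin, Fintype.card_fin, Fintype.card_fin,
    mul_comm] at h
  exact Nat.le_of_mul_le_mul_right h (by omega)

/-- parent function of two stars joined by a path with three edges -/
def starP (n : ℕ) (i : ℕ) : ℕ := if i ≤ 3 then i - 1 else if i ≤ n + 1 then 0 else 3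

lemma starP_lt {n : ℕ} (i : ℕ) (hi : 1 ≤ i) : starP n i < i := by
  unfold starP
  split_ifs <;> omega

/-- two stars with `n-1` edges each, whose centres are at distance three -/
def twoStars (n : ℕ) : SimpleGraph (Fin (2 * n)) := parentGraph (2 * n) (starP n)

/-- the first class -/
def isX (n : ℕ) (v : ℕ) : Prop := v = 0 ∨ v = 2 ∨ n + 2 ≤ v

lemma twoStars_adj {n : ℕ} (hn : 2 ≤ n) (v w : Fin (2 * n)) (hv : isX n v.1) (hw : ¬ isX n w.1) :
    (twoStars n).Adj v w ↔ (v.1 = 0 ∧ w.1 ≠ 3) ∨ (w.1 = 3 ∧ v.1 ≠ 0) ∨ (v.1 = 2 ∧ w.1 = 1) := by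
  unfold twoStars
  rw [parentGraph_adj starP_lt]
  unfold starP
  unfold isX at hv hw
  push Not at hw
  obtain ⟨w0, w2, wn⟩ := hw
  have := v.2
  have := w.2
  generalize v.1 = x at *
  generalize w.1 = y at *
  have hx : x = 0 ∨ x = 2 ∨ 4 ≤ x := by omega
  have hy : y = 1 ∨ y = 3 ∨ 4 ≤ y := by omega
  rcases hx with rfl | rfl | hx <;> rcases hy with rfl | rfl | hy <;> split_ifs <;>
    first | omega | (norm_num; done) | (norm_num; omega)

lemma twoStars_class {n : ℕ} (hn : 2 ≤ n) (v w : Fin (2 * n)) (h : (twoStars n).Adj v w) :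
    isX n v.1 ↔ ¬ isX n w.1 := by
  unfold twoStars at h
  rw [parentGraph_adj starP_lt] at h
  unfold starP at h
  unfold isX
  have := v.2
  have := w.2
  rcases h with ⟨h1, h2⟩ | ⟨h1, h2⟩
  · split_ifs at h2 <;> omega
  · split_ifs at h2 <;> omega

lemma card_isX {n : ℕ} (_hn : 2 ≤ n) : Nat.card {v : Fin (2 * n) // isX n v.1} = n := by
  have : Nat.card (Fin n) = Nat.card {v : Fin (2 * n) // isX n v.1} := by
    apply Nat.card_congr
    refine Equiv.ofBijective
      (fun j => ⟨⟨if j.1 = 0 then 0 else if j.1 = 1 then 2 else n + j.1, ?_⟩, ?_⟩) ⟨?_, ?_⟩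
    · have := j.2
      split_ifs <;> omega
    · have := j.2
      unfold isX
      simp only
      split_ifs <;> omega
    · intro a b hab
      have h := congrArg (fun x => x.1.1) hab
      simp only at h
      apply Fin.ext
      split_ifs at h <;> omega
    · rintro ⟨⟨v, hv⟩, hx⟩
      unfold isX at hx
      simp only at hx
      rcases hx with h | h | h
      · refine ⟨⟨0, by omega⟩, ?_⟩
        apply Subtype.ext
        apply Fin.ext
        simp [h]
      · refine ⟨⟨1, by omega⟩, ?_⟩
        apply Subtype.ext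
        apply Fin.ext
        simp [h]
      · refine ⟨⟨v - n, by omega⟩, ?_⟩
        apply Subtype.ext
        apply Fin.ext
        simp only
        split_ifs <;> omega
  rw [← this, Nat.card_eq_fintype_card, Fintype.card_fin]

lemma card_not_isX {n : ℕ} (hn : 2 ≤ n) : Nat.card {v : Fin (2 * n) // ¬ isX n v.1} = n := by
  have h := card_isX hn
  rw [Nat.card_eq_fintype_card] at h ⊢
  rw [Fintype.card_subtype_compl, h, Fintype.card_fin]
  omega

lemma twoStars_balanced {n : ℕ} (hn : 2 ≤ n) : IsBalancedTree n (twoStars n) := by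
  refine ⟨parentGraph_isTree (by omega) starP_lt, {v | isX n v.1}, ?_, ?_, ?_⟩
  · rw [← Nat.card_coe_set_eq]
    exact card_isX hn
  · rw [← Nat.card_coe_set_eq]
    exact card_not_isX hn
  · intro a b h
    exact twoStars_class hn a b h

/-- what we need from one copy -/
lemma copy_props {n : ℕ} {V A : Type} [Fintype V] [Fintype A] (G : SimpleGraph V)
    (P : V → Prop) (u w u2 w1 : V) (hu : P u) (hw : ¬ P w) (hu2 : P u2)
    (huu : u2 ≠ u) (hww : w1 ≠ w)
    (hG : ∀ v z, P v → ¬ P z → (G.Adj v z ↔ (v = u ∧ z ≠ w) ∨ (z = w ∧ v ≠ u) ∨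
      (v = u2 ∧ z = w1)))
    (hcP : Nat.card {v // P v} = n) (hcP' : Nat.card {v // ¬ P v} = n)
    (f : V → A ⊕ Fin n) (hf : Function.Injective f)
    (hP : ∀ v, P v → ∃ a, f v = Sum.inl a) (hP' : ∀ v, ¬ P v → ∃ b, f v = Sum.inr b) :
    ∃ (a : A) (c : Fin n),
      (∀ b, b ≠ c → ∃ v z, G.Adj v z ∧ f v = Sum.inl a ∧ f z = Sum.inr b) ∧
      (¬ ∃ v z, G.Adj v z ∧ f v = Sum.inl a ∧ f z = Sum.inr c) ∧
      (n - 1 ≤ Nat.card {a' // ∃ v z, G.Adj v z ∧ f v = Sum.inl a' ∧ f z = Sum.inr c}) ∧
      (∀ a' b, (∃ v z, G.Adj v z ∧ f v = Sum.inl a' ∧ f z = Sum.inr b) → a' = a ∨ b = c ∨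
        ∃ b', b' ≠ b ∧ ∃ v z, G.Adj v z ∧ f v = Sum.inl a' ∧ f z = Sum.inr b') ∧
      (∀ b, ∃ a', ∃ v z, G.Adj v z ∧ f v = Sum.inl a' ∧ f z = Sum.inr b) := by
  obtain ⟨a, ha⟩ := hP u hu
  obtain ⟨c, hc⟩ := hP' w hw
  have hPinl : ∀ v a', f v = Sum.inl a' → P v := by
    intro v a' h
    by_contra hv
    obtain ⟨b, hb⟩ := hP' v hv
    rw [h] at hb
    exact absurd hb (by simp)
  have hPinr : ∀ v b, f v = Sum.inr b → ¬ P v := by
    intro v b h hv
    obtain ⟨a', hb⟩ := hP v hv
    rw [h] at hb
    exact absurd hb (by simp)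
  -- surjectivity on the right
  have hsurj : ∀ b : Fin n, ∃ z, ¬ P z ∧ f z = Sum.inr b := by
    choose g hg using hP'
    have hinj : Function.Injective (fun z : {v // ¬ P v} => g z.1 z.2) := by
      intro z z' h
      simp only at h
      apply Subtype.ext
      apply hf
      rw [hg z.1 z.2, hg z'.1 z'.2, h]
    have hb : Function.Bijective (fun z : {v // ¬ P v} => g z.1 z.2) := by
      rw [Fintype.bijective_iff_injective_and_card]
      refine ⟨hinj, ?_⟩
      rw [Fintype.card_fin, ← Nat.card_eq_fintype_card, hcP']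
    intro b
    obtain ⟨z, hz⟩ := hb.2 b
    exact ⟨z.1, z.2, by rw [hg z.1 z.2]; exact congrArg Sum.inr hz⟩
  have hE1 : ∀ b, b ≠ c → ∃ v z, G.Adj v z ∧ f v = Sum.inl a ∧ f z = Sum.inr b := by
    intro b hb
    obtain ⟨z, hz, hzb⟩ := hsurj b
    refine ⟨u, z, (hG u z hu hz).2 (Or.inl ⟨rfl, ?_⟩), ha, hzb⟩
    rintro rfl
    rw [hc] at hzb
    exact hb (Sum.inr.inj hzb).symm
  refine ⟨a, c, hE1, ?_, ?_, ?_, ?_⟩
  · rintro ⟨v, z, h1, h2, h3⟩
    have e1 : v = u := hf (h2.trans ha.symm)
    have e2 : z = w := hf (h3.trans hc.symm)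
    subst e1; subst e2
    rcases (hG _ _ hu hw).1 h1 with ⟨_, h⟩ | ⟨_, h⟩ | ⟨h, _⟩
    · exact h rfl
    · exact h rfl
    · exact huu h.symm
  · choose g hg using hP
    have hle : Fintype.card {v : {v // P v} // ¬ v = ⟨u, hu⟩} ≤
        Nat.card {a' // ∃ v z, G.Adj v z ∧ f v = Sum.inl a' ∧ f z = Sum.inr c} := by
      rw [Nat.card_eq_fintype_card]
      apply Fintype.card_le_of_injective
        (fun v => (⟨g v.1.1 v.1.2, by
          refine ⟨v.1.1, w, (hG _ _ v.1.2 hw).2 (Or.inr (Or.inl ⟨rfl, ?_⟩)),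
            hg v.1.1 v.1.2, hc⟩
          intro h
          exact v.2 (Subtype.ext h)⟩ :
            {a' // ∃ v z, G.Adj v z ∧ f v = Sum.inl a' ∧ f z = Sum.inr c}))
      intro v v' h
      have h' := congrArg Subtype.val h
      simp only at h'
      apply Subtype.ext
      apply Subtype.ext
      apply hf
      rw [hg v.1.1 v.1.2, hg v'.1.1 v'.1.2, h']
    rw [Fintype.card_subtype_compl, Fintype.card_subtype_eq, ← Nat.card_eq_fintype_card, hcP]
      at hle
    exact hle
  · rintro a' b ⟨v, z, h1, h2, h3⟩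
    have hv := hPinl v a' h2
    have hz := hPinr z b h3
    rcases (hG v z hv hz).1 h1 with ⟨h, _⟩ | ⟨h, _⟩ | ⟨h, h'⟩
    · left
      rw [h, ha] at h2
      exact (Sum.inl.inj h2).symm
    · right; left
      rw [h, hc] at h3
      exact (Sum.inr.inj h3).symm
    · right; right
      refine ⟨c, ?_, v, w, (hG v w hv hw).2 (Or.inr (Or.inl ⟨rfl, ?_⟩)), h2, hc⟩
      · rintro rfl
        exact hww (h'.symm.trans (hf (h3.trans hc.symm)))
      · rw [h]
        exact huu
  · intro b
    by_cases hb : b = c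
    · obtain ⟨a2, ha2⟩ := hP u2 hu2
      rw [hb]
      exact ⟨a2, u2, w, (hG _ _ hu2 hw).2 (Or.inr (Or.inl ⟨rfl, huu⟩)), ha2, hc⟩
    · exact ⟨a, hE1 b hb⟩

lemma side_of {n k : ℕ} (hn : 2 ≤ n) (f : Fin (2 * n) → Fin (2 * n - 1) ⊕ Fin k)
    (hadj : ∀ a b, (twoStars n).Adj a b →
      (completeBipartiteGraph (Fin (2 * n - 1)) (Fin k)).Adj (f a) (f b)) :
    ∀ v : Fin (2 * n), ((f v).isLeft = true) ↔
      (((f ⟨0, by omega⟩).isLeft = true) ↔ isX n v.1) := by
  have hflip : ∀ a b, (twoStars n).Adj a b → (((f a).isLeft = true) ↔ ¬ ((f b).isLeft = true)) := by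
    intro a b h
    have h2 := hadj a b h
    rcases h3 : f a with x | x <;> rcases h4 : f b with y | y <;>
      rw [h3, h4] at h2 <;> simp at h2 ⊢
  have key : ∀ m (hm : m < 2 * n), ((f ⟨m, hm⟩).isLeft = true) ↔
      (((f ⟨0, by omega⟩).isLeft = true) ↔ isX n m) := by
    intro m
    induction m using Nat.strong_induction_on with
    | _ m ih =>
      intro hm
      by_cases h0 : m = 0
      · subst h0
        have : isX n 0 := Or.inl rfl
        simp [this]
      · have h1 : 1 ≤ m := by omega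
        have h2 := starP_lt (n := n) m h1
        have h3 : (twoStars n).Adj ⟨m, hm⟩ ⟨starP n m, by omega⟩ := by
          unfold twoStars
          rw [parentGraph_adj starP_lt]
          exact Or.inl ⟨h1, rfl⟩
        have h4 := hflip _ _ h3
        have h5 := twoStars_class hn _ _ h3
        have h6 := ih _ h2 (by omega)
        simp only at h5
        by_cases q1 : (f ⟨m, hm⟩).isLeft = true <;>
          by_cases q2 : (f ⟨0, by omega⟩).isLeft = true <;>
          by_cases q3 : isX n m <;> simp only [q1, q2, q3, true_iff, false_iff, iff_true,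
            iff_false, not_not, not_true, not_false_iff] at h4 h5 h6 ⊢ <;> tauto
  intro v
  exact key v.1 v.2

/-- `n` does not belong to `S n` for `n ≥ 4` -/
theorem self_not_mem_S {n : ℕ} (hn : 4 ≤ n) : n ∉ S n := by
  rintro ⟨_, h⟩
  obtain ⟨m, f, hinj, hadj, hcov⟩ := h (Fin (2 * n)) (twoStars n) (twoStars_balanced (by omega))
  have hm : n ≤ m := cover_count (by omega) starP_lt f
    (fun a b => (hcov (Sum.inl a) (Sum.inr b) (by simp)).exists)
  let E : Fin m → Fin (2 * n - 1) → Fin n → Prop := fun i a b =>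
    ∃ v w, (twoStars n).Adj v w ∧ f i v = Sum.inl a ∧ f i w = Sum.inr b
  have huniq : ∀ i j a b, E i a b → E j a b → i = j := by
    intro i j a b h1 h2
    obtain ⟨u, _, hu⟩ := hcov (Sum.inl a) (Sum.inr b) (by simp)
    rw [hu i h1, hu j h2]
  have hprops : ∀ i, ∃ (a : Fin (2 * n - 1)) (c : Fin n),
      (∀ b, b ≠ c → E i a b) ∧ (¬ E i a c) ∧
      (n - 1 ≤ Nat.card {a' // E i a' c}) ∧
      (∀ a' b, E i a' b → a' = a ∨ b = c ∨ ∃ b', b' ≠ b ∧ E i a' b') ∧
      (∀ b, ∃ a', E i a' b) := by
    intro i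
    have hs := side_of (by omega) (f i) (hadj i)
    simp only [E]
    by_cases h0 : (f i ⟨0, by omega⟩).isLeft = true
    · apply copy_props (twoStars n) (fun v => isX n v.1) ⟨0, by omega⟩ ⟨3, by omega⟩
        ⟨2, by omega⟩ ⟨1, by omega⟩ (Or.inl rfl) ?_ (Or.inr (Or.inl rfl)) ?_ ?_ ?_
        (card_isX (by omega)) (card_not_isX (by omega)) (f i) (hinj i) ?_ ?_
      · unfold isX; simp only; omega
      · simp
      · simp
      · intro v z hv hz
        rw [twoStars_adj (by omega) v z hv hz]
        simp only [Fin.ext_iff, ne_eq]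
      · intro v hv
        have := (hs v).2 ⟨fun _ => hv, fun _ => h0⟩
        exact Sum.isLeft_iff.1 this
      · intro v hv
        have : ¬ ((f i v).isLeft = true) := by
          rw [hs v]
          tauto
        rcases h4 : f i v with x | x
        · rw [h4] at this
          exact absurd rfl this
        · exact ⟨x, rfl⟩
    · apply copy_props (twoStars n) (fun v => ¬ isX n v.1) ⟨3, by omega⟩ ⟨0, by omega⟩
        ⟨1, by omega⟩ ⟨2, by omega⟩ ?_ (not_not_intro (Or.inl rfl)) ?_ ?_ ?_ ?_
        (card_not_isX (by omega)) ?_ (f i) (hinj i) ?_ ?_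
      · unfold isX; simp only; omega
      · unfold isX; simp only; omega
      · simp
      · simp
      · intro v z hv hz
        rw [not_not] at hz
        rw [SimpleGraph.adj_comm, twoStars_adj (by omega) z v hz hv]
        simp only [Fin.ext_iff, ne_eq]
        tauto
      · have := card_isX (n := n) (by omega)
        simp only [not_not]
        exact this
      · intro v hv
        have := (hs v).2 ⟨fun h => absurd h h0, fun h => absurd h hv⟩
        exact Sum.isLeft_iff.1 this
      · intro v hv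
        have : ¬ ((f i v).isLeft = true) := by
          rw [hs v]
          tauto
        rcases h4 : f i v with x | x
        · rw [h4] at this
          exact absurd rfl this
        · exact ⟨x, rfl⟩
  choose a c p1 p2 p3 p4 p5 using hprops
  -- take the first copy
  let i : Fin m := ⟨0, by omega⟩
  obtain ⟨t, ht⟩ : ∃ t, E t (a i) (c i) := (hcov (Sum.inl (a i)) (Sum.inr (c i)) (by simp)).exists
  have hti : t ≠ i := by
    rintro h
    rw [h] at ht
    exact p2 i ht
  have hc : c i = c t := by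
    rcases p4 t _ _ ht with h | h | ⟨b', hb', hE⟩
    · exfalso
      obtain ⟨b, hb1, hb2⟩ : ∃ b : Fin n, b ≠ c i ∧ b ≠ c t := by
        by_contra hno
        push Not at hno
        have : (univ : Finset (Fin n)) ⊆ {c i, c t} := by
          intro b _
          rw [mem_insert, mem_singleton]
          by_cases hb : b = c i
          · exact Or.inl hb
          · exact Or.inr (hno b hb)
        have h1 := card_le_card this
        rw [card_univ, Fintype.card_fin] at h1
        have h2 : ({c i, c t} : Finset (Fin n)).card ≤ 2 := card_le_two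
        omega
      have e1 := p1 i b hb1
      have e2 := p1 t b hb2
      rw [← h] at e2
      exact hti (huniq _ _ _ _ e2 e1)
    · exact h
    · exact absurd (huniq _ _ _ _ hE (p1 i b' hb')) hti
  -- count the neighbours of `c i`
  choose d hd using fun j => p5 j (c i)
  let D1 := univ.filter (fun a' => E i a' (c i))
  let D2 := univ.filter (fun a' => E t a' (c i))
  let D3 := ((univ.erase i).erase t).image d
  have hD : ∀ j, Nat.card {a' // E j a' (c i)} = (univ.filter (fun a' => E j a' (c i))).card := by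
    intro j
    rw [Nat.card_eq_fintype_card, Fintype.card_subtype]
  have c1 : n - 1 ≤ D1.card := by
    have := p3 i
    rwa [hD i] at this
  have c2 : n - 1 ≤ D2.card := by
    have := p3 t
    rw [← hc] at this
    rwa [hD t] at this
  have c3 : D3.card = m - 2 := by
    rw [card_image_of_injective, card_erase_of_mem, card_erase_of_mem (mem_univ _), card_univ,
      Fintype.card_fin]
    · omega
    · exact mem_erase.2 ⟨hti, mem_univ _⟩
    · intro j j' hjj
      have e1 := hd j
      have e2 := hd j'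
      rw [hjj] at e1
      exact huniq _ _ _ _ e1 e2
  have d12 : Disjoint D1 D2 := by
    rw [disjoint_left]
    intro x hx hy
    rw [mem_filter] at hx hy
    exact hti (huniq _ _ _ _ hy.2 hx.2)
  have d123 : Disjoint (D1 ∪ D2) D3 := by
    rw [disjoint_left]
    intro x hx hy
    obtain ⟨j, hj, rfl⟩ := mem_image.1 hy
    rw [mem_erase, mem_erase] at hj
    have e := hd j
    rcases mem_union.1 hx with h | h
    · rw [mem_filter] at h
      exact hj.2.1 (huniq _ _ _ _ e h.2)
    · rw [mem_filter] at h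
      exact hj.1 (huniq _ _ _ _ e h.2)
  have htot := card_le_univ ((D1 ∪ D2) ∪ D3)
  rw [card_union_of_disjoint d123, card_union_of_disjoint d12, Fintype.card_fin] at htot
  omega

end Pool.Agent.R39.Dec
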