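import Mathlib
import Pool.Agent.R39.Dec.Parity
import Pool.Agent.R39.Dec.TwoStars

set_option autoImplicit false
set_option linter.unusedSectionVars false

/-! # The lower bound `2⌊n/2⌋ + 2 ≤ k(n)` -/

namespace Pool.Agent.R39.Dec

open Finset Classical

/-- the path on `2n` vertices needs `n` vertices on the right side -/
lemma path_right {n k : ℕ} (hn : 1 ≤ n) (f : Fin (2 * n) → Fin (2 * n - 1) ⊕ Fin k)
    (hinj : Function.Injective f)
    (hadj : ∀ a b, (pathT n).Adj a b →
      (completeBipartiteGraph (Fin (2 * n - 1)) (Fin k)).Adj (f a) (f b)) : n ≤ k := by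
  have hs := fun v hv => path_side hn (m := 1) (fun _ => f) (fun _ => hadj) 0 v hv
  by_cases h0 : (f ⟨0, by omega⟩).isLeft = true
  · have hex : ∀ j : Fin n, ∃ b, f ⟨2 * j.1 + 1, by omega⟩ = Sum.inr b := by
      intro j
      have h1 := hs (2 * j.1 + 1) (by omega)
      rcases h4 : f ⟨2 * j.1 + 1, by omega⟩ with x | x
      · rw [h4] at h1
        have h2 := h1.1 rfl
        have h3 := h2.1 h0
        omega
      · exact ⟨x, rfl⟩
    choose g hg using hex
    have hgi : Function.Injective g := by
      intro a b hab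
      have h1 := hg a
      rw [hab] at h1
      have := congrArg Fin.val (hinj (h1.trans (hg b).symm))
      simp only at this
      exact Fin.ext (by omega)
    have := Fintype.card_le_of_injective g hgi
    rwa [Fintype.card_fin, Fintype.card_fin] at this
  · have hex : ∀ j : Fin n, ∃ b, f ⟨2 * j.1, by omega⟩ = Sum.inr b := by
      intro j
      have h1 := hs (2 * j.1) (by omega)
      rcases h4 : f ⟨2 * j.1, by omega⟩ with x | x
      · rw [h4] at h1
        have h2 := h1.1 rfl
        exact absurd (h2.2 (by omega)) h0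
      · exact ⟨x, rfl⟩
    choose g hg using hex
    have hgi : Function.Injective g := by
      intro a b hab
      have h1 := hg a
      rw [hab] at h1
      have := congrArg Fin.val (hinj (h1.trans (hg b).symm))
      simp only at this
      exact Fin.ext (by omega)
    have := Fintype.card_le_of_injective g hgi
    rwa [Fintype.card_fin, Fintype.card_fin] at this

lemma le_of_mem_S {n k : ℕ} (hn : 1 ≤ n) (hk : k ∈ S n) : n ≤ k := by
  obtain ⟨hk1, h⟩ := hk
  obtain ⟨m, f, hinj, hadj, hcov⟩ := h (Fin (2 * n)) (pathT n) (pathT_balanced hn)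
  obtain ⟨i, _⟩ := (hcov (Sum.inl ⟨0, by omega⟩) (Sum.inr ⟨0, hk1⟩) (by simp)).exists
  exact path_right hn (f i) (hinj i) (hadj i)

theorem lower_S {n k : ℕ} (hn : 3 ≤ n) (hk : k ∈ S n) : 2 * (n / 2) + 2 ≤ k := by
  have h1 := le_of_mem_S (by omega) hk
  rcases Nat.even_or_odd k with he | ho
  · obtain ⟨r, hr⟩ := he
    by_cases hkn : k = n
    · subst hkn
      exact absurd hk (self_not_mem_S (by omega))
    · omega
  · have h2 : ¬ k < 2 * n - 1 := fun hlt => odd_not_mem_S (by omega) ho hlt hk
    omega

end Pool.Agent.R39.Dec
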